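import Mathlib

/-!
Definitions and brick statements for S11677 (MP_d42559_co): for every `k ≥ 4` there is a sign
pattern with minimum rank 3 and rational minimum rank `k`.
-/

set_option autoImplicit false

namespace Pool.Agent.K3h29.SP

/-- Value at `x` of the line `ℓ = (β, m)`, i.e. `z ↦ β + m z`. -/
def ev {O : Type} [CommRing O] (ℓ : O × O) (x : O) : O := ℓ.1 + ℓ.2 * x

/-- Unit differences. -/
def UD {O : Type} [CommRing O] (X : Finset O) : Prop :=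
  ∀ x ∈ X, ∀ y ∈ X, x ≠ y → IsUnit (x - y)

/-- `L` is connected: a function of `ℓ(x)` which is also a function of `ℓ(x')` is constant. -/
def Conn {O : Type} [CommRing O] (X : Finset O) (L : Set (O × O)) : Prop :=
  ∀ x ∈ X, ∀ x' ∈ X, x ≠ x' → ∀ (κ : Type) (f g : O → κ),
    (∀ ℓ ∈ L, f (ev ℓ x) = g (ev ℓ x')) → ∀ ℓ ∈ L, ∀ ℓ' ∈ L, f (ev ℓ x) = f (ev ℓ' x)

/-- The join property. -/
def Join {O : Type} [CommRing O] (X : Finset O) (L' L : Set (O × O)) : Prop :=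
  ∀ x0 ∈ X, ∀ ℓ0 ∈ L, ∃ t : O × O, (∀ ℓ' ∈ L', t + ℓ' ∈ L) ∧
    ∀ x ∈ X, x ≠ x0 → ∀ ℓ' ∈ L', ∃ ℓ ∈ L, ev ℓ x0 = ev ℓ0 x0 ∧ ev ℓ x = ev (t + ℓ') x

/-- The line of slope `m` which vanishes at `x`. -/
def Lam {O : Type} [CommRing O] (x m : O) : O × O := (-(m * x), m)

/-- The set of lines `∑_{x ∈ X} m_x (z - x)` with all `m_x` in the box of size `R`. -/
def netL {O : Type} [CommRing O] (X : Finset O) {D : ℕ} (g : Fin D → O) (R : ℕ) :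
    Set (O × O) :=
  {ℓ | ∃ c : O → Fin D → ℤ, (∀ x i, |c x i| ≤ (R : ℤ)) ∧
    ℓ = ∑ x ∈ X, Lam x (∑ i, c x i • g i)}

/-- `w j - ∑_{i ∈ T} B j i * w i`. -/
def res {ι : Type} (T : Finset ι) (B : ι → ι → ℤ) (w : ι → ℤ) (j : ι) : ℤ :=
  w j - ∑ i ∈ T, B j i * w i

/-- `b ≡ B a mod 2^K` for `w = (a, b)`, `a` the coordinates in `T`, `b` the others. -/
def Cg {ι : Type} (T : Finset ι) (B : ι → ι → ℤ) (K : ℕ) (w : ι → ℤ) : Prop :=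
  ∀ j, j ∉ T → (2 : ℤ) ^ K ∣ res T B w j

/-- `w` is the `i`-th unit vector modulo 2. -/
def Dg {ι : Type} [DecidableEq ι] (i : ι) (w : ι → ℤ) : Prop :=
  ∀ j, ((w j : ℤ) : ZMod 2) = if i = j then 1 else 0

/-- Exactness of the integer vectors `u`, `v` at the slice `x`. -/
def Exact {O : Type} [CommRing O] {ι : Type} [Fintype ι] (L : Finset (O × O))
    (u : O → O → ι → ℤ) (v : O × O → ι → ℤ) (x : O) : Prop :=
  ∀ ℓ ∈ L, ∀ ℓ' ∈ L, (∑ j, u x (ev ℓ' x) j * v ℓ j = 0 ↔ ev ℓ' x = ev ℓ x)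

/-- `T` is visible on `L`: blocks `C i`, `i ∈ T`, of at least `m` slices, on which the point
vectors are `e_i` modulo 2. -/
structure Vis {O : Type} [CommRing O] {ι : Type} [Fintype ι] [DecidableEq ι] (X : Finset O)
    (T : Finset ι) (m : ℕ) (L : Finset (O × O)) (C : ι → Finset O) (u : O → O → ι → ℤ)
    (v : O × O → ι → ℤ) : Prop where
  sub : ∀ i ∈ T, C i ⊆ X
  card : ∀ i ∈ T, m ≤ (C i).card
  disj : ∀ i ∈ T, ∀ j ∈ T, i ≠ j → Disjoint (C i) (C j)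
  exact : ∀ i ∈ T, ∀ x ∈ C i, Exact L u v x
  diag : ∀ i ∈ T, ∀ x ∈ C i, ∀ ℓ ∈ L, Dg i (u x (ev ℓ x))

/-- The intermediate configuration: `T` visible with blocks `In i`, and `m` more slices `Out`
on which the `T`-coordinates of the point vectors are even and some coordinate is odd. -/
structure Mid {O : Type} [CommRing O] {ι : Type} [Fintype ι] [DecidableEq ι] (X : Finset O)
    (T : Finset ι) (m : ℕ) (L : Finset (O × O)) (In : ι → Finset O) (Out : Finset O)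
    (u : O → O → ι → ℤ) (v : O × O → ι → ℤ) : Prop where
  vis : Vis X T m L In u v
  osub : Out ⊆ X
  ocard : m ≤ Out.card
  odisj : ∀ i ∈ T, Disjoint (In i) Out
  oexact : ∀ x ∈ Out, Exact L u v x
  out : ∀ x ∈ Out, ∀ ℓ ∈ L, (∀ j ∈ T, ((u x (ev ℓ x) j : ℤ) : ZMod 2) = 0) ∧
    ∃ j, ((u x (ev ℓ x) j : ℤ) : ZMod 2) ≠ 0

/-- Brick RING. -/
def RingStm : Prop :=
  ∀ N : ℕ, ∃ (O : Subring ℝ) (X : Finset O), Module.Finite ℤ O ∧ N ≤ X.card ∧ UD X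

/-- Brick GAL: finite form of Gallai's theorem. -/
def GalStm : Prop :=
  ∀ (M κ : Type) [AddCommMonoid M] [Finite κ] (S : Finset M), ∃ L : Finset M,
    ∀ C : M → κ, ∃ a : ℕ, 0 < a ∧ ∃ b : M, (∀ s ∈ S, a • s + b ∈ L) ∧
      ∃ c : κ, ∀ s ∈ S, C (a • s + b) = c

/-- Brick CONN. -/
def ConnStm : Prop :=
  ∀ (O : Type) [CommRing O] [IsDomain O] (X : Finset O), UD X →
    ∀ (D : ℕ) (g : Fin D → O), Submodule.span ℤ (Set.range g) = ⊤ →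
      ∃ R0 : ℕ, ∀ R ≥ R0, Conn X (netL X g R)

/-- Brick JOIN. -/
def JoinStm : Prop :=
  ∀ (O : Type) [CommRing O] [IsDomain O] (X : Finset O), UD X → 3 ≤ X.card →
    ∀ (D : ℕ) (g : Fin D → O), Submodule.span ℤ (Set.range g) = ⊤ →
      ∀ L' : Finset (O × O), ∃ R0 : ℕ, ∀ R ≥ R0, Join X (↑L' : Set (O × O)) (netL X g R)

/-- Brick UNQ: two matrices which work for one vector of each block agree modulo `2^K`,
so they can be exchanged; stated with its consequence for congruences modulo `2^k`, `k ≤ K`. -/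
def UnqStm : Prop :=
  ∀ (ι : Type) [Fintype ι] [DecidableEq ι] (T : Finset ι) (B B' : ι → ι → ℤ) (K : ℕ)
    (w : ι → ι → ℤ), (∀ i ∈ T, Dg i (w i)) → (∀ i ∈ T, Cg T B K (w i)) →
    (∀ i ∈ T, Cg T B' K (w i)) →
    (∀ j, j ∉ T → ∀ i ∈ T, (2 : ℤ) ^ K ∣ B j i - B' j i) ∧
      ∀ k ≤ K, ∀ z : ι → ℤ, Cg T B k z ↔ Cg T B' k z

/-- Brick INV: invertibility. -/
def InvStm : Prop :=
  ∀ (ι : Type) [Fintype ι] [DecidableEq ι] (T : Finset ι) (K : ℕ)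
    (w : ι → ι → ℤ) (γ : ι → ℤ), (∀ i ∈ T, Dg i (w i)) →
    (∀ i ∈ T, (2 : ℤ) ^ K ∣ ∑ j ∈ T, w i j * γ j) → ∀ j ∈ T, (2 : ℤ) ^ K ∣ γ j

/-- Brick LEMA: a common matrix `B`. -/
def LemAStm : Prop :=
  ∀ (O : Type) [CommRing O] (ι : Type) [Fintype ι] [DecidableEq ι] (X : Finset O)
    (T : Finset ι) (L : Finset (O × O)) (In : ι → Finset O) (u : O → O → ι → ℤ) (K : ℕ),
    Conn X (↑L : Set (O × O)) → (∀ i ∈ T, In i ⊆ X) → (∀ i ∈ T, 2 ≤ (In i).card) →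
    (∀ i ∈ T, ∀ x ∈ In i, ∀ ℓ ∈ L, Dg i (u x (ev ℓ x))) →
    (∀ ℓ ∈ L, ∃ B : ι → ι → ℤ, ∀ i ∈ T, ∀ x ∈ In i, Cg T B K (u x (ev ℓ x))) →
    ∃ B : ι → ι → ℤ, ∀ ℓ ∈ L, ∀ i ∈ T, ∀ x ∈ In i, Cg T B K (u x (ev ℓ x))

/-- Brick LEMB: dichotomy on a single line. -/
def LemBStm : Prop :=
  ∀ (ι : Type) [Fintype ι] [DecidableEq ι] (T : Finset ι) (m : ℕ), 0 < m →
    ∀ (E : Type) (C : ι → Finset E) (w : E → ι → ℤ),
    (∀ i ∈ T, 2 ^ Fintype.card ι * (2 ^ Fintype.card ι * m) + m ≤ (C i).card) →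
    (∀ i ∈ T, ∀ x ∈ C i, Dg i (w x)) →
    (∃ S : ι → Finset E, (∀ i ∈ T, S i ⊆ C i ∧ m ≤ (S i).card) ∧
      ∀ K : ℕ, ∃ B : ι → ι → ℤ, ∀ i ∈ T, ∀ x ∈ S i, Cg T B K (w x)) ∨
    (∃ i0 ∈ T, ∃ (In : ι → Finset E) (x0 : E) (Out : Finset E),
      (∀ i ∈ T, In i ⊆ C i ∧ m ≤ (In i).card) ∧ x0 ∈ C i0 ∧ Out ⊆ C i0 ∧ m ≤ Out.card ∧
      Disjoint (In i0) Out ∧
      ∃ (c : ℕ) (B : ι → ι → ℤ), (∀ i ∈ T, ∀ x ∈ In i, Cg T B (c + 1) (w x)) ∧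
        Cg T B c (w x0) ∧ ¬ Cg T B (c + 1) (w x0) ∧ ∀ x ∈ Out, ¬ Cg T B c (w x))

/-- Brick CASE2. -/
def Case2Stm : Prop :=
  ∀ (O : Type) [CommRing O] (ι : Type) [Fintype ι] [DecidableEq ι] (X : Finset O)
    (T : Finset ι) (m : ℕ) (L : Finset (O × O)) (C S : ι → Finset O)
    (u : O → O → ι → ℤ) (v : O × O → ι → ℤ),
    Vis X T m L C u v → Conn X (↑L : Set (O × O)) → T.Nonempty →
    (0 : O × O) ∈ L → ((1, 0) : O × O) ∈ L → (0 : O) ≠ 1 →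
    (∀ i ∈ T, S i ⊆ C i ∧ 2 ≤ (S i).card) →
    (∀ ℓ ∈ L, ∀ K : ℕ, ∃ B : ι → ι → ℤ, ∀ i ∈ T, ∀ x ∈ S i, Cg T B K (u x (ev ℓ x))) →
    False

/-- Brick CASE1. -/
def Case1Stm : Prop :=
  ∀ (O : Type) [CommRing O] (ι : Type) [Fintype ι] [DecidableEq ι] (X : Finset O)
    (T : Finset ι) (m m1 : ℕ) (L' L : Finset (O × O)) (C In : ι → Finset O)
    (u : O → O → ι → ℤ) (v : O × O → ι → ℤ) (i0 : ι) (x0 : O) (Out : Finset O),
    Vis X T m L C u v → Conn X (↑L : Set (O × O)) →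
    Join X (↑L' : Set (O × O)) (↑L : Set (O × O)) → L.Nonempty → 2 ≤ m1 → i0 ∈ T →
    (∀ i ∈ T, In i ⊆ C i ∧ m1 ≤ (In i).card) → x0 ∈ C i0 → Out ⊆ C i0 → m1 ≤ Out.card →
    Disjoint (In i0) Out →
    (∀ ℓ ∈ L, ∃ (c : ℕ) (B : ι → ι → ℤ),
      (∀ i ∈ T, ∀ x ∈ In i, Cg T B (c + 1) (u x (ev ℓ x))) ∧
      Cg T B c (u x0 (ev ℓ x0)) ∧ ¬ Cg T B (c + 1) (u x0 (ev ℓ x0)) ∧
      ∀ x ∈ Out, ¬ Cg T B c (u x (ev ℓ x))) →
    ∃ (u' : O → O → ι → ℤ) (v' : O × O → ι → ℤ), Mid X T m1 L' In Out u' v'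

/-- Brick FIN. -/
def FinStm : Prop :=
  ∀ (O : Type) [CommRing O] [IsDomain O] [CharZero O] (ι : Type) [Fintype ι] [DecidableEq ι]
    (X : Finset O) (m : ℕ) (L : Finset (O × O)), 0 < m → L.Nonempty →
    ∃ L' : Finset (O × O), ∀ (T : Finset ι) (In : ι → Finset O) (Out : Finset O)
      (u : O → O → ι → ℤ) (v : O × O → ι → ℤ),
      Mid X T (2 ^ Fintype.card ι * m) L' In Out u v →
      ∃ j, j ∉ T ∧ ∃ (C : ι → Finset O) (u' : O → O → ι → ℤ) (v' : O × O → ι → ℤ),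
        Vis X (insert j T) m L C u' v'

/-- Brick START. -/
def StartStm : Prop :=
  ∀ (O : Type) [CommRing O] (ι : Type) [Fintype ι] [DecidableEq ι] (X : Finset O)
    (L : Finset (O × O)) (u : O → O → ι → ℤ) (v : O × O → ι → ℤ),
    (0 : O × O) ∈ L → ((1, 0) : O × O) ∈ L → (0 : O) ≠ 1 → (∀ x ∈ X, Exact L u v x) →
    ∃ u' : O → O → ι → ℤ, Mid X (∅ : Finset ι) X.card L (fun _ => ∅) X u' v

/-- Brick NOREAL (assembly). -/
def NoRealStm : Prop :=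
  ∀ s : ℕ, ∃ N : ℕ, ∀ (O : Type) [CommRing O] [IsDomain O] [CharZero O] [Module.Finite ℤ O]
    (X : Finset O), UD X → N ≤ X.card → ∃ L : Finset (O × O),
      ¬ ∃ (u : O → O → Fin s → ℤ) (v : O × O → Fin s → ℤ), ∀ x ∈ X, Exact L u v x

/-- Brick FACT: a rational matrix of rank at most `s` has the zero pattern of the products of
integer vectors of dimension `s`. -/
def FactStm : Prop :=
  ∀ (α β : Type) [Fintype α] [Fintype β] [DecidableEq α] [DecidableEq β] (s : ℕ)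
    (B : Matrix α β ℚ), B.rank ≤ s →
    ∃ (u : α → Fin s → ℤ) (v : β → Fin s → ℤ), ∀ a b, (∑ j, u a j * v b j = 0 ↔ B a b = 0)

/-- Brick IVT: sub-patterns realize all intermediate values of the rational minimum rank. -/
def IvtStm : Prop :=
  ∀ (α β : Type) (M : α → β → ℝ) (S0 S1 : Finset α) (T0 T1 : Finset β) (k : ℕ),
    S0 ⊆ S1 → T0 ⊆ T1 → S0.card ≤ k →
    (∀ B : Matrix S1 T1 ℚ, (∀ i j, SignType.sign (B i j) = SignType.sign (M i j)) →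
      k ≤ B.rank) →
    ∃ (S : Finset α) (T : Finset β), S0 ⊆ S ∧ T0 ⊆ T ∧
      (∃ B : Matrix S T ℚ, (∀ i j, SignType.sign (B i j) = SignType.sign (M i j)) ∧
        B.rank = k) ∧
      (∀ B : Matrix S T ℚ, (∀ i j, SignType.sign (B i j) = SignType.sign (M i j)) →
        k ≤ B.rank)

/-- Brick TRI: a triangular zero pattern gives rank at least 3. -/
def TriStm : Prop :=
  ∀ (α β : Type) [Fintype α] [Fintype β] [DecidableEq α] [DecidableEq β]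
    (B : Matrix α β ℝ) (p : Fin 3 → α) (l : Fin 3 → β),
    (∀ i, B (p i) (l i) ≠ 0) → (∀ i j, i < j → B (p i) (l j) = 0) → 3 ≤ B.rank

/-- Brick LAST: the final assembly. -/
def LastStm : Prop :=
  RingStm → NoRealStm → FactStm → IvtStm → TriStm →
    ∀ k : ℕ, 4 ≤ k → ∃ m n : ℕ, ∃ A : Matrix (Fin m) (Fin n) SignType,
      (∃ B : Matrix (Fin m) (Fin n) ℝ, (∀ i j, SignType.sign (B i j) = A i j) ∧ B.rank = 3) ∧
      (∀ B : Matrix (Fin m) (Fin n) ℝ, (∀ i j, SignType.sign (B i j) = A i j) → 3 ≤ B.rank) ∧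
      (∃ B : Matrix (Fin m) (Fin n) ℚ, (∀ i j, SignType.sign (B i j) = A i j) ∧ B.rank = k) ∧
      (∀ B : Matrix (Fin m) (Fin n) ℚ, (∀ i j, SignType.sign (B i j) = A i j) → k ≤ B.rank)

end Pool.Agent.K3h29.SP
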