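import Mathlib
import Pool.Agent.K3h29.SP.Stm

/-!
# Brick CASE1
-/

set_option autoImplicit false

namespace Pool.Agent.K3h29.SP

theorem Cg_mono1 {ι : Type} {T : Finset ι} {B : ι → ι → ℤ} {K K' : ℕ} {w : ι → ℤ} (h : K' ≤ K)
    (hw : Cg T B K w) : Cg T B K' w := fun j hj => (pow_dvd_pow 2 h).trans (hw j hj)

theorem ev_add1 {O : Type} [CommRing O] (ℓ ℓ' : O × O) (x : O) :
    ev (ℓ + ℓ') x = ev ℓ x + ev ℓ' x := by
  simp only [ev, Prod.fst_add, Prod.snd_add]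
  ring

/-- the transformed point vector -/
noncomputable def tr1 {ι : Type} [DecidableEq ι] (T : Finset ι) (B : ι → ι → ℤ) (c : ℕ)
    (w : ι → ℤ) : ι → ℤ := by
  classical
  exact fun j => if j ∈ T then 2 ^ (c - Nat.findGreatest (fun e => Cg T B e w) c) * w j
    else res T B w j / 2 ^ (Nat.findGreatest (fun e => Cg T B e w) c)

/-- the transformed line vector -/
def vt1 {ι : Type} [Fintype ι] [DecidableEq ι] (T : Finset ι) (B : ι → ι → ℤ) (c : ℕ)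
    (v : ι → ℤ) : ι → ℤ :=
  fun j => if j ∈ T then v j + ∑ k ∈ Tᶜ, B k j * v k else 2 ^ c * v j

/-- the exponent -/
theorem tr1_spec {ι : Type} [DecidableEq ι] (T : Finset ι) (B : ι → ι → ℤ) (c : ℕ)
    (w : ι → ℤ) : ∃ e, e ≤ c ∧ Cg T B e w ∧ (∀ k, e < k → k ≤ c → ¬ Cg T B k w) ∧
      (∀ j ∈ T, tr1 T B c w j = 2 ^ (c - e) * w j) ∧
      ∀ j, j ∉ T → 2 ^ e * tr1 T B c w j = res T B w j := by
  classical
  have h0 : Cg T B 0 w := fun j _ => by simp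
  refine ⟨Nat.findGreatest (fun e => Cg T B e w) c, Nat.findGreatest_le c,
    Nat.findGreatest_spec (P := fun e => Cg T B e w) (Nat.zero_le c) h0, ?_, ?_, ?_⟩
  · intro k hk hkc
    exact Nat.findGreatest_is_greatest (P := fun e => Cg T B e w) hk hkc
  · intro j hj
    rw [tr1]
    simp only [hj, if_true]
  · intro j hj
    have h1 := Nat.findGreatest_spec (P := fun e => Cg T B e w) (Nat.zero_le c) h0
    have h2 : tr1 T B c w j =
        res T B w j / 2 ^ (Nat.findGreatest (fun e => Cg T B e w) c) := by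
      rw [tr1]
      simp only [hj, if_false]
    rw [h2]
    exact Int.mul_ediv_cancel' (h1 j hj)

theorem sum_tr1 {ι : Type} [Fintype ι] [DecidableEq ι] (T : Finset ι) (B : ι → ι → ℤ) (c : ℕ)
    (w v : ι → ℤ) : ∃ e, ∑ j, tr1 T B c w j * vt1 T B c v j = 2 ^ e * ∑ j, w j * v j := by
  obtain ⟨e, hec, -, -, hT, hN⟩ := tr1_spec T B c w
  refine ⟨c - e, ?_⟩
  have h1 : ∑ j, tr1 T B c w j * vt1 T B c v j =
      (∑ j ∈ T, tr1 T B c w j * vt1 T B c v j) + ∑ j ∈ Tᶜ, tr1 T B c w j * vt1 T B c v j :=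
    (Finset.sum_add_sum_compl T _).symm
  have h2 : ∑ j, w j * v j = (∑ j ∈ T, w j * v j) + ∑ j ∈ Tᶜ, w j * v j :=
    (Finset.sum_add_sum_compl T _).symm
  have h3 : ∑ j ∈ T, tr1 T B c w j * vt1 T B c v j =
      2 ^ (c - e) * ((∑ j ∈ T, w j * v j) + ∑ k ∈ Tᶜ, (∑ j ∈ T, B k j * w j) * v k) := by
    have h4 : ∑ k ∈ Tᶜ, (∑ j ∈ T, B k j * w j) * v k =
        ∑ j ∈ T, w j * ∑ k ∈ Tᶜ, B k j * v k := by
      simp only [Finset.sum_mul, Finset.mul_sum]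
      rw [Finset.sum_comm]
      exact Finset.sum_congr rfl fun j _ => Finset.sum_congr rfl fun k _ => by ring
    rw [h4, ← Finset.sum_add_distrib, Finset.mul_sum]
    refine Finset.sum_congr rfl fun j hj => ?_
    rw [hT j hj, vt1]
    simp only [hj, if_true]
    ring
  have h5 : ∑ j ∈ Tᶜ, tr1 T B c w j * vt1 T B c v j =
      2 ^ (c - e) * ((∑ j ∈ Tᶜ, w j * v j) - ∑ k ∈ Tᶜ, (∑ j ∈ T, B k j * w j) * v k) := by
    rw [← Finset.sum_sub_distrib, Finset.mul_sum]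
    refine Finset.sum_congr rfl fun j hj => ?_
    have hj' : j ∉ T := Finset.mem_compl.1 hj
    have h6 := hN j hj'
    rw [vt1]
    simp only [hj', if_false]
    have h7 : (2 : ℤ) ^ c = 2 ^ (c - e) * 2 ^ e := by
      rw [← pow_add, Nat.sub_add_cancel hec]
    have h8 : res T B w j = w j - ∑ i ∈ T, B j i * w i := rfl
    calc tr1 T B c w j * (2 ^ c * v j) = 2 ^ (c - e) * (2 ^ e * tr1 T B c w j) * v j := by
          rw [h7]; ring
      _ = 2 ^ (c - e) * (w j * v j - (∑ i ∈ T, B j i * w i) * v j) := by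
          rw [h6, h8]; ring
  rw [h1, h3, h5, h2]
  ring

theorem case1 (hU : UnqStm) (hA : LemAStm) : Case1Stm := by
  classical
  intro O _ ι _ _ X T m m1 L' L C In u v i0 x0 Out hV hConn hJoin hL hm1 hi0 hIn hx0 hOut hOc
    hdis hyp
  choose! cc BB h1 h2 h3 h4 using hyp
  obtain ⟨ℓ1, hℓ1, hmin⟩ := Finset.exists_min_image L cc hL
  set c := cc ℓ1 with hc
  -- the common matrix
  obtain ⟨B, hB⟩ := hA O ι X T L In u (c + 1) hConn (fun i hi => (hIn i hi).1.trans (hV.sub i hi))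
    (fun i hi => hm1.trans (hIn i hi).2)
    (fun i hi x hx ℓ hℓ => hV.diag i hi x ((hIn i hi).1 hx) ℓ hℓ)
    (fun ℓ hℓ => ⟨BB ℓ, fun i hi x hx =>
      Cg_mono1 (Nat.succ_le_succ (hmin ℓ hℓ)) (h1 ℓ hℓ i hi x hx)⟩)
  have hex : ∀ i, ∃ x, i ∈ T → x ∈ In i := by
    intro i
    by_cases hi : i ∈ T
    · have : (In i).Nonempty := by
        rw [← Finset.card_pos]
        have := (hIn i hi).2
        omega
      obtain ⟨x, hx⟩ := this
      exact ⟨x, fun _ => hx⟩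
    · exact ⟨x0, fun h => absurd h hi⟩
  choose xi hxi using hex
  have hiff : ∀ ℓ ∈ L, ∀ k ≤ c + 1, ∀ z : ι → ℤ, Cg T B k z ↔ Cg T (BB ℓ) k z := by
    intro ℓ hℓ
    refine (hU ι T B (BB ℓ) (c + 1) (fun i => u (xi i) (ev ℓ (xi i))) ?_ ?_ ?_).2
    · intro i hi
      exact hV.diag i hi _ ((hIn i hi).1 (hxi i hi)) ℓ hℓ
    · intro i hi
      exact hB ℓ hℓ i hi _ (hxi i hi)
    · intro i hi
      exact Cg_mono1 (Nat.succ_le_succ (hmin ℓ hℓ)) (h1 ℓ hℓ i hi _ (hxi i hi))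
  have hx0X : x0 ∈ X := hV.sub i0 hi0 hx0
  obtain ⟨t, ht1, ht2⟩ := hJoin x0 hx0X ℓ1 hℓ1
  have hnot : ¬ Cg T B (c + 1) (u x0 (ev ℓ1 x0)) := fun h =>
    h3 ℓ1 hℓ1 ((hiff ℓ1 hℓ1 (c + 1) le_rfl _).1 h)
  -- outside
  have hout : ∀ x ∈ Out, ∀ ℓ' ∈ L', ¬ Cg T B c (u x (ev (t + ℓ') x)) := by
    intro x hx ℓ' hℓ'
    have hne : x ≠ x0 := by
      rintro rfl
      exact h4 ℓ1 hℓ1 x hx (h2 ℓ1 hℓ1)
    obtain ⟨ℓ, hℓ, e1, e2⟩ := ht2 x (hV.sub i0 hi0 (hOut hx)) hne ℓ' hℓ'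
    have hℓ : ℓ ∈ L := hℓ
    have hcl : cc ℓ = c := by
      by_contra hne'
      have h5 : c + 1 ≤ cc ℓ := by
        have := hmin ℓ hℓ
        omega
      have h6 := Cg_mono1 h5 (h2 ℓ hℓ)
      rw [e1] at h6
      exact hnot ((hiff ℓ hℓ (c + 1) le_rfl _).2 h6)
    intro h
    rw [← e2] at h
    have h7 := h4 ℓ hℓ x hx
    rw [hcl] at h7
    exact h7 ((hiff ℓ hℓ c (Nat.le_succ c) _).1 h)
  have hin : ∀ i ∈ T, ∀ x ∈ In i, ∀ ℓ' ∈ L', Cg T B (c + 1) (u x (ev (t + ℓ') x)) :=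
    fun i hi x hx ℓ' hℓ' => hB _ (ht1 ℓ' hℓ') i hi x hx
  let u' : O → O → ι → ℤ := fun x y => tr1 T B c (u x (y + ev t x))
  let v' : O × O → ι → ℤ := fun ℓ => vt1 T B c (v (t + ℓ))
  have hu' : ∀ x ℓ, u' x (ev ℓ x) = tr1 T B c (u x (ev (t + ℓ) x)) := by
    intro x ℓ
    change tr1 T B c (u x (ev ℓ x + ev t x)) = _
    rw [ev_add1, add_comm]
  have hexact : ∀ x, Exact L u v x → Exact L' u' v' x := by
    intro x hx ℓ hℓ ℓ' hℓ'
    rw [hu']
    obtain ⟨e, he⟩ := sum_tr1 T B c (u x (ev (t + ℓ') x)) (v (t + ℓ))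
    have h8 : ∑ j, tr1 T B c (u x (ev (t + ℓ') x)) j * v' ℓ j =
        2 ^ e * ∑ j, u x (ev (t + ℓ') x) j * v (t + ℓ) j := he
    rw [h8, mul_eq_zero, or_iff_right (pow_ne_zero e two_ne_zero)]
    have h9 := hx (t + ℓ) (ht1 ℓ hℓ) (t + ℓ') (ht1 ℓ' hℓ')
    rw [h9, ev_add1, ev_add1, add_right_inj]
  refine ⟨u', v', ⟨?_, ?_, ?_, ?_, ?_⟩, ?_, hOc, ?_, ?_, ?_⟩
  · exact fun i hi => (hIn i hi).1.trans (hV.sub i hi)
  · exact fun i hi => (hIn i hi).2
  · exact fun i hi j hj hij => Finset.disjoint_of_subset_left (hIn i hi).1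
      (Finset.disjoint_of_subset_right (hIn j hj).1 (hV.disj i hi j hj hij))
  · exact fun i hi x hx => hexact x (hV.exact i hi x ((hIn i hi).1 hx))
  · intro i hi x hx ℓ hℓ j
    rw [hu']
    obtain ⟨e, hec, hCe, hmax, hT, hN⟩ := tr1_spec T B c (u x (ev (t + ℓ) x))
    have hcg := hin i hi x hx ℓ hℓ
    have he : e = c := by
      by_contra hne
      exact hmax c (by omega) le_rfl (Cg_mono1 (Nat.le_succ c) hcg)
    subst he
    by_cases hj : j ∈ T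
    · rw [hT j hj, Nat.sub_self, pow_zero, one_mul]
      exact hV.diag i hi x ((hIn i hi).1 hx) (t + ℓ) (ht1 ℓ hℓ) j
    · have hij : i ≠ j := fun h => hj (h ▸ hi)
      rw [if_neg hij]
      have h9 := hcg j hj
      rw [← hN j hj, pow_succ] at h9
      have h10 : (2 : ℤ) ∣ tr1 T B c (u x (ev (t + ℓ) x)) j :=
        Int.dvd_of_mul_dvd_mul_left (pow_ne_zero c two_ne_zero) h9
      exact (ZMod.intCast_zmod_eq_zero_iff_dvd _ 2).2 (by exact_mod_cast h10)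
  · exact hOut.trans (hV.sub i0 hi0)
  · intro i hi
    by_cases hii : i = i0
    · rw [hii]
      exact hdis
    · exact Finset.disjoint_of_subset_left (hIn i hi).1
        (Finset.disjoint_of_subset_right hOut (hV.disj i hi i0 hi0 hii))
  · exact fun x hx => hexact x (hV.exact i0 hi0 x (hOut hx))
  · intro x hx ℓ hℓ
    rw [hu']
    obtain ⟨e, hec, hCe, hmax, hT, hN⟩ := tr1_spec T B c (u x (ev (t + ℓ) x))
    have hno := hout x hx ℓ hℓ
    have he : e < c := by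
      rcases hec.lt_or_eq with h | h
      · exact h
      · exact absurd (h ▸ hCe) hno
    constructor
    · intro j hj
      rw [hT j hj]
      refine (ZMod.intCast_zmod_eq_zero_iff_dvd _ 2).2 ?_
      obtain ⟨r, hr⟩ : ∃ r, c - e = r + 1 := ⟨c - e - 1, by omega⟩
      rw [hr, pow_succ]
      exact ⟨2 ^ r * u x (ev (t + ℓ) x) j, by push_cast; ring⟩
    · have h9 := hmax (e + 1) (Nat.lt_succ_self e) he
      unfold Cg at h9
      push Not at h9
      obtain ⟨j, hj, hnd⟩ := h9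
      refine ⟨j, fun h => hnd ?_⟩
      have h10 : (2 : ℤ) ∣ tr1 T B c (u x (ev (t + ℓ) x)) j := by
        exact_mod_cast (ZMod.intCast_zmod_eq_zero_iff_dvd _ 2).1 h
      rw [← hN j hj, pow_succ]
      exact mul_dvd_mul_left _ h10

end Pool.Agent.K3h29.SP
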