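import Pool.Agent.K3h29.SP.Stm

/-!
Brick CASE2 for S11677 (MP_d42559_co).
-/

set_option autoImplicit false

namespace Pool.Agent.K3h29.SP

theorem case2_key {ι : Type} [Fintype ι] [DecidableEq ι] (T : Finset ι) (B : ι → ι → ℤ)
    (w z : ι → ℤ) : ∑ j, w j * z j = ∑ i ∈ T, w i * (z i + ∑ j ∈ Tᶜ, B j i * z j) +
      ∑ j ∈ Tᶜ, res T B w j * z j := by
  have h1 : ∑ j ∈ Tᶜ, res T B w j * z j = ∑ j ∈ Tᶜ, w j * z j -
      ∑ i ∈ T, w i * ∑ j ∈ Tᶜ, B j i * z j := by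
    have h2 : ∑ i ∈ T, w i * ∑ j ∈ Tᶜ, B j i * z j =
        ∑ j ∈ Tᶜ, (∑ i ∈ T, B j i * w i) * z j := by
      simp only [Finset.mul_sum, Finset.sum_mul]
      rw [Finset.sum_comm]
      refine Finset.sum_congr rfl fun j _ => Finset.sum_congr rfl fun i _ => ?_
      ring
    rw [h2, ← Finset.sum_sub_distrib]
    refine Finset.sum_congr rfl fun j _ => ?_
    unfold res
    ring
  rw [h1, ← Finset.sum_add_sum_compl T]
  simp only [mul_add, Finset.sum_add_distrib]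
  ring

theorem case2 (hI : InvStm) (hA : LemAStm) : Case2Stm := by
  intro O _ ι _ _ X T m L C S u v hV hC hT h0 h1 h01 hS hB
  obtain ⟨i, hi⟩ := hT
  obtain ⟨x, hx⟩ : (S i).Nonempty := by
    rw [← Finset.card_pos]
    have := (hS i hi).2
    omega
  have hxC : x ∈ C i := (hS i hi).1 hx
  have hP : ∑ j, u x (ev ((1, 0) : O × O) x) j * v 0 j ≠ 0 := by
    intro h
    have h2 := (hV.exact i hi x hxC 0 h0 (1, 0) h1).mp h
    unfold ev at h2
    simp only [zero_mul, add_zero, Prod.fst_zero, Prod.snd_zero] at h2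
    exact h01 h2.symm
  have hdiv : ∀ K : ℕ, (2 : ℤ) ^ K ∣ ∑ j, u x (ev ((1, 0) : O × O) x) j * v 0 j := by
    intro K
    obtain ⟨B, hBK⟩ := hA O ι X T L S u K hC (fun i hi => ((hS i hi).1).trans (hV.sub i hi))
      (fun i hi => (hS i hi).2)
      (fun i hi y hy ℓ hℓ => hV.diag i hi y ((hS i hi).1 hy) ℓ hℓ) (fun ℓ hℓ => hB ℓ hℓ K)
    have hrest : ∀ ℓ ∈ L, ∀ i ∈ T, ∀ y ∈ S i, ∀ z : ι → ℤ,
        (2 : ℤ) ^ K ∣ ∑ j ∈ Tᶜ, res T B (u y (ev ℓ y)) j * z j := by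
      intro ℓ hℓ i hi y hy z
      refine Finset.dvd_sum fun j hj => Dvd.dvd.mul_right ?_ _
      exact hBK ℓ hℓ i hi y hy j (Finset.mem_compl.mp hj)
    have hne : ∀ i ∈ T, ∃ y, y ∈ S i := by
      intro i hi
      have h3 : (S i).Nonempty := by
        rw [← Finset.card_pos]
        have := (hS i hi).2
        omega
      exact h3
    choose! y hy using hne
    have hγ : ∀ j ∈ T, (2 : ℤ) ^ K ∣ v 0 j + ∑ k ∈ Tᶜ, B k j * v 0 k := by
      refine hI ι T K (fun i => u (y i) (ev 0 (y i))) _ (fun i hi => ?_) (fun i hi => ?_)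
      · exact hV.diag i hi (y i) ((hS i hi).1 (hy i hi)) 0 h0
      · have h4 := (hV.exact i hi (y i) ((hS i hi).1 (hy i hi)) 0 h0 0 h0).mpr rfl
        rw [case2_key T B] at h4
        have h5 := hrest 0 h0 i hi (y i) (hy i hi) (v 0)
        exact (Int.dvd_add_left h5).mp (h4 ▸ dvd_zero _)
    rw [case2_key T B]
    refine dvd_add (Finset.dvd_sum fun j hj => Dvd.dvd.mul_left (hγ j hj) _) ?_
    exact hrest (1, 0) h1 i hi x hx (v 0)
  apply hP
  obtain ⟨K, hK⟩ : ∃ K : ℕ, (∑ j, u x (ev ((1, 0) : O × O) x) j * v 0 j).natAbs < 2 ^ K :=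
    ⟨_, Nat.lt_two_pow_self⟩
  refine Int.eq_zero_of_abs_lt_dvd (hdiv K) ?_
  rw [Int.abs_eq_natAbs]
  exact_mod_cast hK

end Pool.Agent.K3h29.SP
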