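import Pool.Agent.K3h29.SP.Stm

/-!
Brick CONN of S11677 (MP_d42559_co): the net of lines is connected (written by helper99).
-/

set_option autoImplicit false

namespace Pool.Agent.K3h29.SP

open scoped Classical

theorem box_induct {D : ℕ} {κ : Type} (R : ℤ) (Ψ : (Fin D → ℤ) → κ)
    (h : ∀ a i, (∀ j, |a j| ≤ R) → (∀ j, |(a + Pi.single i 1 : Fin D → ℤ) j| ≤ R) →
      Ψ (a + Pi.single i 1) = Ψ a) (a : Fin D → ℤ) (ha : ∀ j, |a j| ≤ R) : Ψ a = Ψ 0 := by
  obtain ⟨n, hn⟩ : ∃ n, n = ∑ j, (a j).natAbs := ⟨_, rfl⟩
  induction n using Nat.strong_induction_on generalizing a with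
  | _ n ih =>
    by_cases h0 : a = 0
    · rw [h0]
    · obtain ⟨i, hi⟩ := Function.ne_iff.mp h0
      have hi' : a i ≠ 0 := hi
      rcases lt_or_gt_of_ne hi' with hlt | hgt
      · have hb : ∀ j, |(a + Pi.single i 1 : Fin D → ℤ) j| ≤ R := by
          intro j
          by_cases hj : j = i
          · subst hj
            rw [Pi.add_apply, Pi.single_eq_same]
            have := abs_le.mp (ha j)
            rw [abs_le]
            constructor <;> omega
          · rw [Pi.add_apply, Pi.single_eq_of_ne hj, add_zero]
            exact ha j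
        have hs : ∑ j, ((a + Pi.single i 1 : Fin D → ℤ) j).natAbs < n := by
          rw [hn]
          apply Finset.sum_lt_sum
          · intro j _
            by_cases hj : j = i
            · subst hj
              rw [Pi.add_apply, Pi.single_eq_same]
              omega
            · rw [Pi.add_apply, Pi.single_eq_of_ne hj, add_zero]
          · refine ⟨i, Finset.mem_univ i, ?_⟩
            rw [Pi.add_apply, Pi.single_eq_same]
            omega
        have h1 := ih _ hs (a + Pi.single i 1) hb rfl
        rw [← h a i ha hb, h1]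
      · obtain ⟨a', rfl⟩ : ∃ a', a = a' + Pi.single i 1 := ⟨a - Pi.single i 1, by abel⟩
        have hai : 0 < a' i + 1 := by
          rw [Pi.add_apply, Pi.single_eq_same] at hgt
          exact hgt
        have hb : ∀ j, |a' j| ≤ R := by
          intro j
          by_cases hj : j = i
          · subst hj
            have := ha j
            rw [Pi.add_apply, Pi.single_eq_same] at this
            have := abs_le.mp this
            rw [abs_le]
            constructor <;> omega
          · have := ha j
            rwa [Pi.add_apply, Pi.single_eq_of_ne hj, add_zero] at this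
        have hs : ∑ j, (a' j).natAbs < n := by
          rw [hn]
          apply Finset.sum_lt_sum
          · intro j _
            by_cases hj : j = i
            · subst hj
              rw [Pi.add_apply, Pi.single_eq_same]
              omega
            · rw [Pi.add_apply, Pi.single_eq_of_ne hj, add_zero]
          · refine ⟨i, Finset.mem_univ i, ?_⟩
            rw [Pi.add_apply, Pi.single_eq_same]
            omega
        rw [h a' i hb ha]
        exact ih _ hs a' hb rfl

/-- the combinations of the `g i` with coefficients at most `R` -/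
def Sm {O : Type} [CommRing O] {D : ℕ} (g : Fin D → O) (R : ℕ) (s : O) : Prop :=
  ∃ a : Fin D → ℤ, (∀ i, |a i| ≤ (R : ℤ)) ∧ s = ∑ i, a i • g i

theorem Sm_zero {O : Type} [CommRing O] {D : ℕ} (g : Fin D → O) (R : ℕ) : Sm g R 0 :=
  ⟨0, fun i => by simp, by simp⟩

theorem exists_Sm {O : Type} [CommRing O] {D : ℕ} (g : Fin D → O)
    (hg : Submodule.span ℤ (Set.range g) = ⊤) (d : O) : ∃ N : ℕ, ∀ R ≥ N, Sm g R d := by
  have h1 : d ∈ Submodule.span ℤ (Set.range g) := by
    rw [hg]
    exact Submodule.mem_top
  obtain ⟨c, hc⟩ := (Submodule.mem_span_range_iff_exists_fun ℤ).mp h1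
  refine ⟨∑ i, (c i).natAbs, fun R hR => ⟨c, fun i => ?_, hc.symm⟩⟩
  have h2 : (c i).natAbs ≤ ∑ i, (c i).natAbs :=
    Finset.single_le_sum (f := fun i => (c i).natAbs) (fun _ _ => Nat.zero_le _)
      (Finset.mem_univ i)
  rw [Int.abs_eq_natAbs]
  exact_mod_cast h2.trans hR

/-- the line of the slopes `m y` -/
def Ml {O : Type} [CommRing O] (X : Finset O) (m : O → O) : O × O := ∑ y ∈ X, Lam y (m y)

theorem ev_Ml {O : Type} [CommRing O] (X : Finset O) (m : O → O) (z : O) :
    ev (Ml X m) z = ∑ y ∈ X, m y * (z - y) := by
  unfold ev Ml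
  rw [Prod.fst_sum, Prod.snd_sum, Finset.sum_mul, ← Finset.sum_add_distrib]
  refine Finset.sum_congr rfl fun y _ => ?_
  simp only [Lam]
  ring

theorem ev_update {O : Type} [CommRing O] (X : Finset O) (m : O → O) (y : O) (hy : y ∈ X)
    (a z : O) : ev (Ml X (Function.update m y a)) z = ev (Ml X m) z + (a - m y) * (z - y) := by
  rw [ev_Ml, ev_Ml, ← Finset.add_sum_erase X _ hy, ← Finset.add_sum_erase X
    (fun y => m y * (z - y)) hy, Function.update_self]
  have h1 : ∑ x ∈ X.erase y, Function.update m y a x * (z - x) =
      ∑ x ∈ X.erase y, m x * (z - x) := by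
    refine Finset.sum_congr rfl fun x hx => ?_
    rw [Function.update_of_ne (Finset.ne_of_mem_erase hx)]
  rw [h1]
  ring

theorem Ml_mem {O : Type} [CommRing O] (X : Finset O) {D : ℕ} (g : Fin D → O) (R : ℕ)
    (m : O → O) (hm : ∀ y, Sm g R (m y)) : Ml X m ∈ netL X g R := by
  choose c hc1 hc2 using hm
  refine ⟨c, hc1, ?_⟩
  unfold Ml
  refine Finset.sum_congr rfl fun y _ => ?_
  rw [← hc2]

theorem Sm_update {O : Type} [CommRing O] {D : ℕ} (g : Fin D → O) (R : ℕ)
    (m : O → O) (hm : ∀ y, Sm g R (m y)) (y a : O) (ha : Sm g R a) (z : O) :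
    Sm g R (Function.update m y a z) := by
  by_cases h : z = y
  · subst h
    rw [Function.update_self]
    exact ha
  · rw [Function.update_of_ne h]
    exact hm z

theorem conn : ConnStm := by
  intro O _ _ X hX D g hg
  choose ρ hρ using exists_Sm g hg
  refine ⟨∑ x ∈ X, ∑ x' ∈ X, ∑ y ∈ X, ∑ i, ρ (g i * (x - y) * Ring.inverse (x - x')), ?_⟩
  intro R hR x hx x' hx' hne κ f g' hfg
  have hsm : ∀ y ∈ X, ∀ i, Sm g R (g i * (x - y) * Ring.inverse (x - x')) := by
    intro y hy i
    refine hρ _ R (le_trans ?_ hR)
    refine le_trans ?_ (Finset.single_le_sum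
      (f := fun x => ∑ x' ∈ X, ∑ y ∈ X, ∑ i, ρ (g i * (x - y) * Ring.inverse (x - x')))
      (fun _ _ => Nat.zero_le _) hx)
    refine le_trans ?_ (Finset.single_le_sum
      (f := fun x' => ∑ y ∈ X, ∑ i, ρ (g i * (x - y) * Ring.inverse (x - x')))
      (fun _ _ => Nat.zero_le _) hx')
    refine le_trans ?_ (Finset.single_le_sum
      (f := fun y => ∑ i, ρ (g i * (x - y) * Ring.inverse (x - x')))
      (fun _ _ => Nat.zero_le _) hy)
    exact Finset.single_le_sum
      (f := fun i => ρ (g i * (x - y) * Ring.inverse (x - x')))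
      (fun _ _ => Nat.zero_le _) (Finset.mem_univ i)
  have hu : Ring.inverse (x - x') * (x - x') = 1 := Ring.inverse_mul_cancel _ (hX x hx x' hx' hne)
  -- the row of `x'`
  have hrow2 : ∀ (m : O → O) (a : O), (∀ y, Sm g R (m y)) → Sm g R a →
      f (ev (Ml X (Function.update m x' a)) x) = f (ev (Ml X m) x) := by
    intro m a hm ha
    rw [hfg _ (Ml_mem X g R _ (Sm_update g R m hm x' a ha)), hfg _ (Ml_mem X g R m hm),
      ev_update X m x' hx' a x', sub_self, mul_zero, add_zero]
  -- one step
  have hstep : ∀ y ∈ X, ∀ (m : O → O), (∀ y, Sm g R (m y)) → ∀ i, Sm g R (m y + g i) →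
      f (ev (Ml X (Function.update m y (m y + g i))) x) = f (ev (Ml X m) x) := by
    intro y hy m hm i hi
    by_cases hyx : y = x'
    · subst hyx
      exact hrow2 m _ hm hi
    · have hm' := Sm_update g R m hm y _ hi
      rw [← hrow2 (Function.update m y (m y + g i)) 0 hm' (Sm_zero g R),
        ← hrow2 m (g i * (x - y) * Ring.inverse (x - x')) hm (hsm y hy i)]
      congr 1
      rw [ev_update X _ x' hx', ev_update X m y hy, ev_update X m x' hx',
        Function.update_of_ne (Ne.symm hyx)]
      have h1 : g i * (x - y) * Ring.inverse (x - x') * (x - x') = g i * (x - y) := by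
        rw [mul_assoc, hu, mul_one]
      linear_combination -h1
  -- one row
  have hrow : ∀ y ∈ X, ∀ (m : O → O), (∀ y, Sm g R (m y)) →
      f (ev (Ml X m) x) = f (ev (Ml X (Function.update m y 0)) x) := by
    intro y hy m hm
    obtain ⟨a, ha1, ha2⟩ := hm y
    have h1 := box_induct (R : ℤ)
      (fun a => f (ev (Ml X (Function.update m y (∑ i, a i • g i))) x)) (by
        intro a i ha hai
        have h2 : ∑ j, (a + Pi.single i 1 : Fin D → ℤ) j • g j = (∑ j, a j • g j) + g i := by
          have h3 : ∑ j, (Pi.single i 1 : Fin D → ℤ) j • g j = g i := by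
            rw [Finset.sum_eq_single i]
            · rw [Pi.single_eq_same, one_smul]
            · intro j _ hj
              rw [Pi.single_eq_of_ne hj, zero_smul]
            · intro h
              exact absurd (Finset.mem_univ i) h
          simp only [Pi.add_apply, add_smul, Finset.sum_add_distrib, h3]
        have h4 := hstep y hy (Function.update m y (∑ j, a j • g j))
          (Sm_update g R m hm y _ ⟨a, ha, rfl⟩) i (by
            rw [Function.update_self, ← h2]
            exact ⟨_, hai, rfl⟩)
        rw [Function.update_self, Function.update_idem] at h4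
        change f (ev (Ml X (Function.update m y (∑ j, (a + Pi.single i 1 : Fin D → ℤ) j • g j))) x)
          = f (ev (Ml X (Function.update m y (∑ j, a j • g j))) x)
        rw [h2]
        exact h4) a ha1
    have h5 : Function.update m y (∑ i, a i • g i) = m := by
      rw [← ha2]
      exact Function.update_eq_self y m
    have h6 : ∑ i, (0 : Fin D → ℤ) i • g i = 0 := by simp
    simp only [h5, h6] at h1
    exact h1
  -- all rows
  have hall : ∀ A : Finset O, A ⊆ X → ∀ (m : O → O), (∀ y, Sm g R (m y)) →
      f (ev (Ml X m) x) = f (ev (Ml X (fun y => if y ∈ A then 0 else m y)) x) := by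
    intro A
    induction A using Finset.induction_on with
    | empty =>
      intro _ m _
      simp
    | insert z A hz ih =>
      intro hA m hm
      rw [ih (fun y hy => hA (Finset.mem_insert_of_mem hy)) m hm,
        hrow z (hA (Finset.mem_insert_self z A)) (fun y => if y ∈ A then 0 else m y) (by
          intro y
          split_ifs
          · exact Sm_zero g R
          · exact hm y)]
      have h1 : Function.update (fun y => if y ∈ A then 0 else m y) z 0 =
          fun y => if y ∈ insert z A then 0 else m y := by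
        funext y
        by_cases hy : y = z
        · subst hy
          rw [Function.update_self, if_pos (Finset.mem_insert_self y A)]
        · rw [Function.update_of_ne hy]
          simp only [Finset.mem_insert, hy, false_or]
      rw [h1]
  have hfin : ∀ ℓ ∈ netL X g R, f (ev ℓ x) = f 0 := by
    rintro ℓ ⟨c, hc, rfl⟩
    have h1 := hall X (Finset.Subset.refl X) (fun y => ∑ i, c y i • g i)
      (fun y => ⟨c y, hc y, rfl⟩)
    have h2 : ev (Ml X (fun y => if y ∈ X then 0 else ∑ i, c y i • g i)) x = 0 := by
      rw [ev_Ml]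
      refine Finset.sum_eq_zero fun y hy => ?_
      rw [if_pos hy, zero_mul]
    rw [h2] at h1
    exact h1
  intro ℓ hℓ ℓ' hℓ'
  rw [hfin ℓ hℓ, hfin ℓ' hℓ']

end Pool.Agent.K3h29.SP
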