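import Pool.Agent.K3h29.SP.Stm

/-!
# Brick FACT: rational rank factorization cleared to integers (by helper87)
-/

set_option autoImplicit false

namespace Pool.Agent.K3h29.SP

theorem clear_den {s : ℕ} (q : Fin s → ℚ) :
    ∃ (N : ℤ) (u : Fin s → ℤ), N ≠ 0 ∧ ∀ j, (u j : ℚ) = N * q j := by
  obtain ⟨b, hb⟩ := IsLocalization.exist_integer_multiples_of_finite (nonZeroDivisors ℤ) q
  choose u hu using hb
  refine ⟨b, u, nonZeroDivisors.ne_zero b.2, fun j => ?_⟩
  have := hu j
  simpa [zsmul_eq_mul] using this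

theorem rank_factF {α β : Type} [Fintype α] [Fintype β] [DecidableEq β] (s : ℕ)
    (B : Matrix α β ℚ) (hB : B.rank ≤ s) :
    ∃ (P : α → Fin s → ℚ) (Q : β → Fin s → ℚ), ∀ a b, B a b = ∑ j, P a j * Q b j := by
  set W := LinearMap.range B.mulVecLin with hW
  set r := Module.finrank ℚ W with hr
  have hrs : r ≤ s := hB
  let e : Module.Basis (Fin r) ℚ W := Module.finBasis ℚ W
  have hcol : ∀ b, (fun a => B a b) ∈ W := by
    intro b
    refine ⟨Pi.single b 1, ?_⟩
    ext a
    simp
  let c : β → Fin r → ℚ := fun b i => e.repr ⟨fun a => B a b, hcol b⟩ i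
  have h1 : ∀ a b, B a b = ∑ i : Fin r, ((e i : W) : α → ℚ) a * c b i := by
    intro a b
    have h2 := e.sum_repr ⟨fun a => B a b, hcol b⟩
    have h3 := congrArg (fun w : W => (w : α → ℚ) a) h2
    simp only [Submodule.coe_sum, Submodule.coe_smul, Finset.sum_apply, Pi.smul_apply,
      smul_eq_mul] at h3
    rw [← h3]
    exact Finset.sum_congr rfl fun i _ => mul_comm _ _
  let PP : α → ℕ → ℚ := fun a k => if h : k < r then ((e ⟨k, h⟩ : W) : α → ℚ) a else 0
  let QQ : β → ℕ → ℚ := fun b k => if h : k < r then c b ⟨k, h⟩ else 0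
  refine ⟨fun a j => PP a j, fun b j => QQ b j, fun a b => ?_⟩
  rw [h1 a b]
  have h4 : ∑ i : Fin r, ((e i : W) : α → ℚ) a * c b i = ∑ k ∈ Finset.range r, PP a k * QQ b k := by
    rw [Finset.sum_range]
    refine Finset.sum_congr rfl fun i _ => ?_
    simp [PP, QQ]
  have h5 : ∑ j : Fin s, PP a j * QQ b j = ∑ k ∈ Finset.range s, PP a k * QQ b k := by
    rw [Finset.sum_range]
  rw [h4, h5]
  refine Finset.sum_subset (Finset.range_mono hrs) fun k _ hk => ?_
  have : ¬ k < r := fun h => hk (Finset.mem_range.2 h)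
  simp [PP, this]

theorem fact : FactStm := by
  intro α β _ _ _ _ s B hB
  obtain ⟨P, Q, hPQ⟩ := rank_factF s B hB
  choose N u hN hu using fun a => clear_den (P a)
  choose M v hM hv using fun b => clear_den (Q b)
  refine ⟨u, v, fun a b => ?_⟩
  have h1 : ((∑ j, u a j * v b j : ℤ) : ℚ) = N a * M b * B a b := by
    rw [hPQ a b, Finset.mul_sum]
    push_cast
    refine Finset.sum_congr rfl fun j _ => ?_
    rw [hu a j, hv b j]
    ring
  have hN' : (N a : ℚ) ≠ 0 := by exact_mod_cast hN a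
  have hM' : (M b : ℚ) ≠ 0 := by exact_mod_cast hM b
  constructor
  · intro h
    rw [h] at h1
    have h2 : (N a : ℚ) * M b * B a b = 0 := by
      rw [← h1]
      simp
    rcases mul_eq_zero.1 h2 with h3 | h3
    · exact absurd h3 (mul_ne_zero hN' hM')
    · exact h3
  · intro h
    rw [h, mul_zero] at h1
    exact_mod_cast h1

end Pool.Agent.K3h29.SP
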