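import Pool.Agent.K3h29.SP.Stm

/-!
Brick FIN (by helper10): from the intermediate configuration to one more visible coordinate.
-/

set_option autoImplicit false

namespace Pool.Agent.K3h29.SP

theorem ev_smul_add {O : Type} [CommRing O] (a : ℕ) (l b : O × O) (x : O) :
    ev (a • l + b) x = a • ev l x + ev b x := by
  have h1 : (a • l + b).1 = a • l.1 + b.1 := rfl
  have h2 : (a • l + b).2 = a • l.2 + b.2 := rfl
  unfold ev
  rw [h1, h2]
  simp only [nsmul_eq_mul]
  ring

/-- the change of the point vectors -/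
def tau {ι : Type} [DecidableEq ι] (j0 : ι) (D : ι → ℤ) (w : ι → ℤ) (j : ι) : ℤ :=
  if j = j0 then w j0 else w j - D j * w j0

/-- the change of the line vectors -/
def sigma {ι : Type} [Fintype ι] [DecidableEq ι] (j0 : ι) (D : ι → ℤ) (z : ι → ℤ) (j : ι) : ℤ :=
  if j = j0 then z j0 + ∑ k ∈ Finset.univ.erase j0, D k * z k else z j

theorem tau_sigma {ι : Type} [Fintype ι] [DecidableEq ι] (j0 : ι) (D w z : ι → ℤ) :
    ∑ j, tau j0 D w j * sigma j0 D z j = ∑ j, w j * z j := by
  rw [← Finset.add_sum_erase _ _ (Finset.mem_univ j0),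
    ← Finset.add_sum_erase (a := j0) _ (fun j => w j * z j) (Finset.mem_univ j0)]
  have h1 : tau j0 D w j0 = w j0 := if_pos rfl
  have h2 : sigma j0 D z j0 = z j0 + ∑ k ∈ Finset.univ.erase j0, D k * z k := if_pos rfl
  have h3 : ∑ j ∈ Finset.univ.erase j0, tau j0 D w j * sigma j0 D z j =
      ∑ j ∈ Finset.univ.erase j0, (w j * z j - w j0 * (D j * z j)) := by
    refine Finset.sum_congr rfl fun j hj => ?_
    have hne : j ≠ j0 := Finset.ne_of_mem_erase hj
    have e1 : tau j0 D w j = w j - D j * w j0 := if_neg hne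
    have e2 : sigma j0 D z j = z j := if_neg hne
    rw [e1, e2]
    ring
  rw [h1, h2, h3, Finset.sum_sub_distrib, ← Finset.mul_sum]
  ring

theorem finThm (hG : GalStm) : FinStm := by
  intro O _ _ _ ι _ _ X m L hm hL
  obtain ⟨L', hL'⟩ := hG (O × O) ({x // x ∈ X} → ι → ZMod 2) L
  refine ⟨L', fun T In Out u v H => ?_⟩
  obtain ⟨a, ha, b, hb, c, hc⟩ :=
    hL' (fun l x j => ((u x.1 (ev l x.1) j : ℤ) : ZMod 2))
  classical
  obtain ⟨d, hd⟩ : ∃ d : O → ι → ZMod 2, ∀ x ∈ X, ∀ l ∈ L, ∀ j,
      ((u x (ev (a • l + b) x) j : ℤ) : ZMod 2) = d x j := by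
    refine ⟨fun x => if h : x ∈ X then c ⟨x, h⟩ else 0, fun x hx l hl j => ?_⟩
    have h1 := congrFun (congrFun (hc l hl) ⟨x, hx⟩) j
    simp only [dif_pos hx]
    exact h1
  have hcard : (Finset.univ : Finset (ι → ZMod 2)).card * m ≤ Out.card := by
    have h1 : (Finset.univ : Finset (ι → ZMod 2)).card = 2 ^ Fintype.card ι := by
      rw [Finset.card_univ, Fintype.card_fun, ZMod.card]
    rw [h1]
    exact H.ocard
  obtain ⟨y, -, hy⟩ := Finset.exists_le_card_fiber_of_mul_le_card_of_maps_to
    (s := Out) (t := (Finset.univ : Finset (ι → ZMod 2))) (f := d)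
    (fun _ _ => Finset.mem_univ _) Finset.univ_nonempty hcard
  obtain ⟨x1, hx1⟩ : (Out.filter fun x => d x = y).Nonempty := by
    rw [← Finset.card_pos]
    omega
  rw [Finset.mem_filter] at hx1
  obtain ⟨l1, hl1⟩ := hL
  obtain ⟨h3, j0, h4⟩ := H.out x1 hx1.1 (a • l1 + b) (hb l1 hl1)
  have hyT : ∀ j ∈ T, y j = 0 := by
    intro j hj
    rw [← hx1.2, ← hd x1 (H.osub hx1.1) l1 hl1 j]
    exact h3 j hj
  have hy0 : y j0 ≠ 0 := by
    rw [← hx1.2, ← hd x1 (H.osub hx1.1) l1 hl1 j0]
    exact h4
  have hj0 : j0 ∉ T := fun h => hy0 (hyT j0 h)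
  have hy1 : y j0 = 1 := by
    generalize y j0 = z at hy0
    revert z
    decide
  obtain ⟨D, hD⟩ : ∃ D : ι → ℤ, ∀ j, ((D j : ℤ) : ZMod 2) = y j :=
    ⟨fun j => ((y j).val : ℤ), fun j => by
      rw [Int.cast_natCast, ZMod.natCast_zmod_val]⟩
  have hsum : ∀ (x : O) (l l' : O × O),
      ∑ j, tau j0 D (u x (a • ev l' x + ev b x)) j * sigma j0 D (v (a • l + b)) j =
        ∑ j, u x (ev (a • l' + b) x) j * v (a • l + b) j := by
    intro x l l'
    rw [tau_sigma, ev_smul_add]
  have hex : ∀ x : O, Exact L' u v x →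
      Exact L (fun x z => tau j0 D (u x (a • z + ev b x)))
        (fun l => sigma j0 D (v (a • l + b))) x := by
    intro x hx l hl l' hl'
    have h5 := hx (a • l + b) (hb l hl) (a • l' + b) (hb l' hl')
    simp only
    rw [hsum, h5, ev_smul_add, ev_smul_add]
    constructor
    · intro h6
      have h7 := add_right_cancel h6
      rw [nsmul_eq_mul, nsmul_eq_mul] at h7
      have ha0 : (a : O) ≠ 0 := Nat.cast_ne_zero.2 (by omega)
      exact mul_left_cancel₀ ha0 h7
    · intro h6
      rw [h6]
  have hm' : m ≤ 2 ^ Fintype.card ι * m := Nat.le_mul_of_pos_left m (by positivity)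
  have hOut : ∀ i ∈ T, Disjoint (In i) (Out.filter fun x => d x = y) := fun i hi =>
    (H.odisj i hi).mono_right (Finset.filter_subset _ _)
  have hTne : ∀ i ∈ T, i ≠ j0 := fun i hi h => hj0 (h ▸ hi)
  refine ⟨j0, hj0, fun i => if i = j0 then Out.filter (fun x => d x = y) else In i,
    fun x z => tau j0 D (u x (a • z + ev b x)), fun l => sigma j0 D (v (a • l + b)), ?_⟩
  constructor
  · intro i hi
    rcases Finset.mem_insert.1 hi with h | h
    · rw [if_pos h]
      exact (Finset.filter_subset _ _).trans H.osub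
    · rw [if_neg (hTne i h)]
      exact H.vis.sub i h
  · intro i hi
    rcases Finset.mem_insert.1 hi with h | h
    · rw [if_pos h]
      exact hy
    · rw [if_neg (hTne i h)]
      exact hm'.trans (H.vis.card i h)
  · intro i hi j hj hij
    rcases Finset.mem_insert.1 hi with h | h
    · rcases Finset.mem_insert.1 hj with h' | h'
      · exact absurd (h.trans h'.symm) hij
      · rw [if_pos h, if_neg (hTne j h')]
        exact (hOut j h').symm
    · rcases Finset.mem_insert.1 hj with h' | h'
      · rw [if_neg (hTne i h), if_pos h']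
        exact hOut i h
      · rw [if_neg (hTne i h), if_neg (hTne j h')]
        exact H.vis.disj i h j h' hij
  · intro i hi x hx
    rcases Finset.mem_insert.1 hi with h | h
    · rw [if_pos h] at hx
      exact hex x (H.oexact x (Finset.mem_filter.1 hx).1)
    · rw [if_neg (hTne i h)] at hx
      exact hex x (H.vis.exact i h x hx)
  · intro i hi x hx l hl j
    have h5 : a • ev l x + ev b x = ev (a • l + b) x := (ev_smul_add a l b x).symm
    change ((tau j0 D (u x (a • ev l x + ev b x)) j : ℤ) : ZMod 2) = if i = j then 1 else 0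
    rw [h5]
    rcases Finset.mem_insert.1 hi with h | h
    · rw [if_pos h] at hx
      rw [Finset.mem_filter] at hx
      have h6 : ∀ j, ((u x (ev (a • l + b) x) j : ℤ) : ZMod 2) = y j := fun j => by
        rw [hd x (H.osub hx.1) l hl j, hx.2]
      unfold tau
      by_cases hj : j = j0
      · rw [if_pos hj, if_pos (h.trans hj.symm), h6, hy1]
      · rw [if_neg hj, if_neg (fun h7 => hj (h7.symm.trans h))]
        push_cast
        rw [h6, h6, hD, hy1, mul_one, sub_self]
    · rw [if_neg (hTne i h)] at hx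
      have h6 := H.vis.diag i h x hx (a • l + b) (hb l hl)
      have h7 : ((u x (ev (a • l + b) x) j0 : ℤ) : ZMod 2) = 0 := by
        rw [h6 j0, if_neg (hTne i h)]
      unfold tau
      by_cases hj : j = j0
      · rw [if_pos hj, h7, if_neg (fun h8 => hTne i h (h8.trans hj))]
      · rw [if_neg hj]
        push_cast
        rw [h7, mul_zero, sub_zero]
        exact h6 j

end Pool.Agent.K3h29.SP
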