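import Pool.Agent.K3h29.SP.Stm

/-!
# SP brick GAL: finite form of Gallai's theorem (from the Hales-Jewett theorem)
-/

set_option autoImplicit false

namespace Pool.Agent.K3h29.SP

open Combinatorics

theorem gal : GalStm := by
  intro M κ _ _ S
  classical
  obtain ⟨ι, _inst, hι⟩ := Line.exists_mono_in_high_dimension S κ
  refine ⟨Finset.univ.image fun v : ι → S => ∑ i, (v i : M), fun C => ?_⟩
  obtain ⟨l, c, hl⟩ := hι fun v => C <| ∑ i, (v i : M)
  set s : Finset ι := {i | l.idxFun i = none} with hs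
  have key : ∀ x (xs : x ∈ S), s.card • x +
      ∑ i ∈ sᶜ, ((l.idxFun i).map (fun m : S => (m : M))).getD 0 = ∑ i, (l ⟨x, xs⟩ i : M) := by
    intro x xs
    rw [← Finset.sum_add_sum_compl s]
    congr 1
    · rw [← Finset.sum_const]
      apply Finset.sum_congr rfl
      intro i hi
      rw [hs, Finset.mem_filter] at hi
      rw [l.apply_none _ _ hi.right]
    · apply Finset.sum_congr rfl
      intro i hi
      rw [hs, Finset.compl_filter, Finset.mem_filter] at hi
      obtain ⟨y, hy⟩ := Option.ne_none_iff_exists.mp hi.right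
      simp [← hy, Option.map_some, Option.getD]
  refine ⟨s.card, Finset.card_pos.mpr ⟨l.proper.choose, ?_⟩,
    ∑ i ∈ sᶜ, ((l.idxFun i).map (fun m : S => (m : M))).getD 0, fun x xs => ?_, c, fun x xs => ?_⟩
  · rw [hs, Finset.mem_filter]
    exact ⟨Finset.mem_univ _, l.proper.choose_spec⟩
  · rw [key x xs]
    exact Finset.mem_image_of_mem _ (Finset.mem_univ _)
  · rw [key x xs]
    exact hl ⟨x, xs⟩

end Pool.Agent.K3h29.SP
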