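import Pool.Agent.K3h29.SP.Stm

/-!
# Brick IVT for S11677: intermediate rational minimum ranks
-/

set_option autoImplicit false

namespace Pool.Agent.K3h29.SP

/-- every matrix is a product through its rank -/
theorem rank_fact {α β : Type} [Fintype α] [Fintype β] (B : Matrix α β ℚ) :
    ∃ (u : α → Fin B.rank → ℚ) (v : β → Fin B.rank → ℚ), ∀ a b, B a b = ∑ j, u a j * v b j := by
  classical
  let b : Module.Basis (Fin B.rank) ℚ (LinearMap.range B.mulVecLin) :=
    Module.finBasisOfFinrankEq ℚ _ rfl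
  have hc : ∀ t : β, B.col t ∈ LinearMap.range B.mulVecLin := by
    intro t
    refine ⟨Pi.single t 1, ?_⟩
    rw [Matrix.mulVecLin_apply, Matrix.mulVec_single_one]
  refine ⟨fun a j => (b j : α → ℚ) a, fun t j => b.repr ⟨B.col t, hc t⟩ j, fun a t => ?_⟩
  have h1 := b.sum_repr ⟨B.col t, hc t⟩
  have h2 := congrFun (congrArg Subtype.val h1) a
  rw [Submodule.coe_sum, Finset.sum_apply] at h2
  refine Eq.trans (Eq.symm h2) (Finset.sum_congr rfl fun j _ => ?_)
  rw [Submodule.coe_smul, Pi.smul_apply, smul_eq_mul, mul_comm]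

/-- there is a rational matrix of rank at most `r` with the signs of `M` on `S × T` -/
def Rk {α β : Type} (M : α → β → ℝ) (S : Finset α) (T : Finset β) (r : ℕ) : Prop :=
  ∃ (u : α → Fin r → ℚ) (v : β → Fin r → ℚ), ∀ i ∈ S, ∀ j ∈ T,
    SignType.sign (∑ k, u i k * v j k) = SignType.sign (M i j)

theorem Rk.swap {α β : Type} {M : α → β → ℝ} {S : Finset α} {T : Finset β} {r : ℕ}
    (h : Rk M S T r) : Rk (fun j i => M i j) T S r := by
  obtain ⟨u, v, h⟩ := h
  refine ⟨v, u, fun i hi j hj => ?_⟩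
  rw [← h j hj i hi]
  congr 1
  exact Finset.sum_congr rfl fun k _ => mul_comm _ _

theorem sign_sign (s : SignType) : SignType.sign ((s : ℚ)) = s := by
  cases s <;> simp

theorem Rk.insert {α β : Type} [DecidableEq α] {M : α → β → ℝ} {S : Finset α} {T : Finset β}
    {r : ℕ} (h : Rk M S T r) (a : α) : Rk M (insert a S) T (r + 1) := by
  obtain ⟨u, v, h⟩ := h
  refine ⟨fun i => if i = a then Fin.cons 1 0 else Fin.cons 0 (u i),
    fun j => Fin.cons ((SignType.sign (M a j) : SignType) : ℚ) (v j), fun i hi j hj => ?_⟩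
  rw [Fin.sum_univ_succ]
  by_cases hia : i = a
  · subst hia
    simp [sign_sign]
  · have hi' : i ∈ S := (Finset.mem_insert.mp hi).resolve_left hia
    simp only [if_neg hia, Fin.cons_zero, Fin.cons_succ, zero_mul, zero_add]
    exact h i hi' j hj

theorem Rk.card {α β : Type} [DecidableEq α] (M : α → β → ℝ) (S : Finset α) (T : Finset β) :
    Rk M S T S.card := by
  induction S using Finset.induction_on with
  | empty => exact ⟨fun _ => 0, fun _ => 0, fun i hi => absurd hi (Finset.notMem_empty i)⟩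
  | insert a S ha ih =>
    rw [Finset.card_insert_of_notMem ha]
    exact ih.insert a

/-- from the factorization to matrices -/
theorem Rk.mat {α β : Type} {M : α → β → ℝ} {S : Finset α} {T : Finset β} {r : ℕ}
    (h : Rk M S T r) : ∃ B : Matrix S T ℚ,
      (∀ i j, SignType.sign (B i j) = SignType.sign (M i j)) ∧ B.rank ≤ r := by
  obtain ⟨u, v, h⟩ := h
  refine ⟨(Matrix.of fun (i : S) (k : Fin r) => u i k) * (Matrix.of fun (k : Fin r) (j : T) => v j k),
    fun i j => ?_, ?_⟩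
  · rw [Matrix.mul_apply]
    exact h i i.2 j j.2
  · refine (Matrix.rank_mul_le_left _ _).trans ?_
    refine (Matrix.rank_le_card_width _).trans ?_
    rw [Fintype.card_fin]

theorem mat_Rk {α β : Type} {M : α → β → ℝ} {S : Finset α} {T : Finset β} (B : Matrix S T ℚ)
    (hB : ∀ i j, SignType.sign (B i j) = SignType.sign (M i j)) : Rk M S T B.rank := by
  classical
  obtain ⟨u, v, h⟩ := rank_fact B
  refine ⟨fun i => if hi : i ∈ S then u ⟨i, hi⟩ else 0,
    fun j => if hj : j ∈ T then v ⟨j, hj⟩ else 0, fun i hi j hj => ?_⟩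
  dsimp only
  rw [dif_pos hi, dif_pos hj, ← h]
  exact hB ⟨i, hi⟩ ⟨j, hj⟩

/-- discrete intermediate values -/
theorem mid_val {γ : Type} [DecidableEq γ] (F : Finset γ → ℕ)
    (hF : ∀ a S, F (insert a S) ≤ F S + 1) (S0 S1 : Finset γ) (h01 : S0 ⊆ S1) (k : ℕ)
    (h0 : F S0 ≤ k) (h1 : k ≤ F S1) : ∃ S, S0 ⊆ S ∧ F S = k := by
  classical
  have hne : (S1.powerset.filter fun S => S0 ⊆ S ∧ F S ≤ k).Nonempty :=
    ⟨S0, Finset.mem_filter.mpr ⟨Finset.mem_powerset.mpr h01, Finset.Subset.refl _, h0⟩⟩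
  obtain ⟨S, hS, hmax⟩ := Finset.exists_max_image _ Finset.card hne
  rw [Finset.mem_filter, Finset.mem_powerset] at hS
  refine ⟨S, hS.2.1, ?_⟩
  by_contra hne'
  have hlt : F S < k := lt_of_le_of_ne hS.2.2 hne'
  have hSne : S ≠ S1 := by
    rintro rfl
    omega
  obtain ⟨a, ha1, ha2⟩ := Finset.exists_of_ssubset (hS.1.ssubset_of_ne hSne)
  have h2 := hF a S
  have h3 := hmax (insert a S) (Finset.mem_filter.mpr ⟨Finset.mem_powerset.mpr
    (Finset.insert_subset ha1 hS.1), hS.2.1.trans (Finset.subset_insert a S), by omega⟩)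
  rw [Finset.card_insert_of_notMem ha2] at h3
  omega

theorem ivt : IvtStm := by
  classical
  intro α β M S0 S1 T0 T1 k hS hT hk hB
  have hex : ∀ (S : Finset α) (T : Finset β), ∃ r, Rk M S T r := fun S T => ⟨_, Rk.card M S T⟩
  let f : Finset α → Finset β → ℕ := fun S T => Nat.find (hex S T)
  have hf : ∀ S T, Rk M S T (f S T) := fun S T => Nat.find_spec (hex S T)
  have hmin : ∀ S T r, Rk M S T r → f S T ≤ r := fun S T r h => Nat.find_min' (hex S T) h
  have hstep1 : ∀ T a S, f (insert a S) T ≤ f S T + 1 := fun T a S =>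
    hmin _ _ _ ((hf S T).insert a)
  have hstep2 : ∀ S b T, f S (insert b T) ≤ f S T + 1 := fun S b T =>
    hmin _ _ _ ((hf S T).swap.insert b).swap
  have hstart : f S0 T0 ≤ k := (hmin _ _ _ (Rk.card M S0 T0)).trans hk
  have hend : k ≤ f S1 T1 := by
    obtain ⟨B, hB1, hB2⟩ := (hf S1 T1).mat
    exact (hB B hB1).trans hB2
  have hmain : ∃ S T, S0 ⊆ S ∧ T0 ⊆ T ∧ f S T = k := by
    by_cases h : k ≤ f S1 T0
    · obtain ⟨S, h1, h2⟩ := mid_val (fun S => f S T0) (fun a S => hstep1 T0 a S) S0 S1 hS k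
        hstart h
      exact ⟨S, T0, h1, Finset.Subset.refl _, h2⟩
    · obtain ⟨T, h1, h2⟩ := mid_val (fun T => f S1 T) (fun b T => hstep2 S1 b T) T0 T1 hT k
        (by omega) hend
      exact ⟨S1, T, hS, h1, h2⟩
  obtain ⟨S, T, h1, h2, h3⟩ := hmain
  have hlow : ∀ B : Matrix S T ℚ, (∀ i j, SignType.sign (B i j) = SignType.sign (M i j)) →
      k ≤ B.rank := by
    intro B hB'
    rw [← h3]
    exact hmin _ _ _ (mat_Rk B hB')
  refine ⟨S, T, h1, h2, ?_, hlow⟩
  obtain ⟨B, hB1, hB2⟩ := (hf S T).mat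
  refine ⟨B, hB1, le_antisymm ?_ (hlow B hB1)⟩
  rw [← h3]
  exact hB2

end Pool.Agent.K3h29.SP
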