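import Pool.Agent.K3h29.SP.Stm

/-! Brick JOIN of the project SP (helper29, S11677), proved by helper39: the net of lines has the
join property. -/

set_option autoImplicit false

namespace Pool.Agent.K3h29.SP

namespace JoinAux

variable {O : Type} [CommRing O]

theorem ev_add (l l' : O × O) (z : O) : ev (l + l') z = ev l z + ev l' z := by
  simp only [ev, Prod.fst_add, Prod.snd_add]; ring

theorem ev_Lam (x m z : O) : ev (Lam x m) z = m * (z - x) := by
  simp only [ev, Lam]; ring

theorem ev_sum {α : Type} (s : Finset α) (f : α → O × O) (z : O) :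
    ev (∑ a ∈ s, f a) z = ∑ a ∈ s, ev (f a) z := by
  classical
  induction s using Finset.induction_on with
  | empty => simp [ev]
  | insert a s ha ih => rw [Finset.sum_insert ha, Finset.sum_insert ha, ev_add, ih]

theorem Lam_add (x m m' : O) : Lam x (m + m') = Lam x m + Lam x m' := by
  ext
  · simp only [Lam, Prod.fst_add]; ring
  · simp only [Lam, Prod.snd_add]

theorem Lam_zero (x : O) : Lam x 0 = 0 := by
  ext <;> simp [Lam]

/-- the elements with coefficients in the box of size `R` -/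
def MM {D : ℕ} (g : Fin D → O) (R : ℕ) : Set O :=
  {m | ∃ c : Fin D → ℤ, (∀ i, |c i| ≤ (R : ℤ)) ∧ m = ∑ i, c i • g i}

theorem MM_mono {D : ℕ} (g : Fin D → O) {R R' : ℕ} (h : R ≤ R') : MM g R ⊆ MM g R' := by
  rintro m ⟨c, hc, rfl⟩
  exact ⟨c, fun i => (hc i).trans (by exact_mod_cast h), rfl⟩

theorem MM_finite {D : ℕ} (g : Fin D → O) (R : ℕ) : (MM g R).Finite := by
  have h1 : MM g R ⊆ (fun c : Fin D → ℤ => ∑ i, c i • g i) ''
      (Set.pi Set.univ fun _ => Set.Icc (-(R : ℤ)) R) := by
    rintro m ⟨c, hc, rfl⟩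
    exact ⟨c, fun i _ => Set.mem_Icc.2 (abs_le.1 (hc i)), rfl⟩
  exact (Set.Finite.image _ (Set.Finite.pi fun _ => Set.finite_Icc _ _)).subset h1

theorem exists_MM {D : ℕ} {g : Fin D → O} (hg : Submodule.span ℤ (Set.range g) = ⊤) (m : O) :
    ∃ R : ℕ, m ∈ MM g R := by
  have h1 : m ∈ Submodule.span ℤ (Set.range g) := by rw [hg]; trivial
  obtain ⟨c, hc⟩ := (Submodule.mem_span_range_iff_exists_fun ℤ).1 h1
  refine ⟨Finset.univ.sup fun i => (c i).natAbs, c, fun i => ?_, hc.symm⟩
  have h2 : (c i).natAbs ≤ Finset.univ.sup fun i => (c i).natAbs :=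
    Finset.le_sup (f := fun i => (c i).natAbs) (Finset.mem_univ i)
  rw [Int.abs_eq_natAbs]
  exact_mod_cast h2

theorem exists_MM_finite {D : ℕ} {g : Fin D → O}
    (hg : Submodule.span ℤ (Set.range g) = ⊤) {F : Set O} (hF : F.Finite) :
    ∃ R : ℕ, F ⊆ MM g R := by
  choose N hN using exists_MM hg
  refine ⟨hF.toFinset.sup N, fun m hm => MM_mono g ?_ (hN m)⟩
  exact Finset.le_sup (f := N) (hF.mem_toFinset.2 hm)

theorem clamp {R S : ℕ} (h : 2 * S ≤ R) (c : ℤ) (hc : |c| ≤ (R : ℤ)) :
    ∃ s : ℤ, |s| ≤ (S : ℤ) ∧ ∀ e : ℤ, |e| ≤ (S : ℤ) → |c + s + e| ≤ (R : ℤ) := by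
  have hc' := abs_le.1 hc
  by_cases h1 : c > (R : ℤ) - S
  · refine ⟨-S, by simp, fun e he => ?_⟩
    have he' := abs_le.1 he
    rw [abs_le]
    constructor <;> omega
  · by_cases h2 : c < -((R : ℤ) - S)
    · refine ⟨S, by simp, fun e he => ?_⟩
      have he' := abs_le.1 he
      rw [abs_le]
      constructor <;> omega
    · refine ⟨0, by simp, fun e he => ?_⟩
      have he' := abs_le.1 he
      rw [abs_le]
      constructor <;> omega

/-- every line is a sum of two lines which vanish at `x1`, `x2` -/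
theorem split (x1 x2 : O) (h : IsUnit (x1 - x2)) (l : O × O) :
    l = Lam x1 (Ring.inverse (x2 - x1) * ev l x2) + Lam x2 (Ring.inverse (x1 - x2) * ev l x1) := by
  have h' : IsUnit (x2 - x1) := by
    have := h.neg
    rwa [neg_sub] at this
  obtain ⟨u, hu⟩ := h
  have h1 : (x1 - x2) * Ring.inverse (x1 - x2) = 1 := Ring.mul_inverse_cancel _ ⟨u, hu⟩
  have h2 : (x2 - x1) * Ring.inverse (x2 - x1) = 1 := Ring.mul_inverse_cancel _ h'
  have h3 : Ring.inverse (x2 - x1) = - Ring.inverse (x1 - x2) := by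
    have : (x1 - x2) * (Ring.inverse (x2 - x1) + Ring.inverse (x1 - x2)) = 0 := by
      linear_combination h1 - h2
    have h4 : Ring.inverse (x1 - x2) * ((x1 - x2) *
        (Ring.inverse (x2 - x1) + Ring.inverse (x1 - x2))) = 0 := by rw [this, mul_zero]
    rw [← mul_assoc, mul_comm (Ring.inverse (x1 - x2)) (x1 - x2), h1, one_mul] at h4
    linear_combination h4
  rw [h3]
  ext
  · simp only [Lam, ev, Prod.fst_add]
    linear_combination (-l.1) * h1
  · simp only [Lam, ev, Prod.snd_add]
    linear_combination (-l.2) * h1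

end JoinAux

open JoinAux in
/-- Brick JOIN. -/
theorem join : JoinStm := by
  classical
  intro O _ _ X hX h3 D g hg L'
  -- the bound `S`
  obtain ⟨S, hS⟩ : ∃ S : ℕ, ∀ l ∈ L', ∀ x1 ∈ X, ∀ x2 ∈ X,
      Ring.inverse (x2 - x1) * ev l x2 ∈ MM g S := by
    have hfin : (⋃ l ∈ L', ⋃ x1 ∈ X, ⋃ x2 ∈ X,
        ({Ring.inverse (x2 - x1) * ev l x2} : Set O)).Finite := by
      refine Set.Finite.biUnion L'.finite_toSet fun l _ => ?_
      refine Set.Finite.biUnion X.finite_toSet fun x1 _ => ?_
      exact Set.Finite.biUnion X.finite_toSet fun x2 _ => Set.finite_singleton _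
    obtain ⟨S, hS⟩ := exists_MM_finite hg hfin
    refine ⟨S, fun l hl x1 hx1 x2 hx2 => hS ?_⟩
    simp only [Set.mem_iUnion]
    exact ⟨l, hl, x1, hx1, x2, hx2, rfl⟩
  -- the bound `R1`
  obtain ⟨R1, hR1⟩ : ∃ R1 : ℕ, ∀ l ∈ L', ∀ x0 ∈ X, ∀ x ∈ X, ∀ σ : O → O,
      (∀ x', σ x' ∈ MM g S) →
      Ring.inverse (x - x0) * (∑ x' ∈ X.erase x0, σ x' * (x - x') + ev l x) ∈ MM g R1 := by
    have hfin : (⋃ l ∈ L', ⋃ x0 ∈ X, ⋃ x ∈ X,
        ((fun σ : X → O => Ring.inverse (x - x0) *
          (∑ x' ∈ X.attach, (if (x' : O) = x0 then 0 else σ x' * (x - x')) + ev l x)) ''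
          (Set.pi Set.univ fun _ => MM g S))).Finite := by
      refine Set.Finite.biUnion L'.finite_toSet fun l _ => ?_
      refine Set.Finite.biUnion X.finite_toSet fun x0 _ => ?_
      refine Set.Finite.biUnion X.finite_toSet fun x _ => ?_
      exact Set.Finite.image _ (Set.Finite.pi fun _ => MM_finite g S)
    obtain ⟨R1, hR1⟩ := exists_MM_finite hg hfin
    refine ⟨R1, fun l hl x0 hx0 x hx σ hσ => hR1 ?_⟩
    simp only [Set.mem_iUnion]
    refine ⟨l, hl, x0, hx0, x, hx, fun x' => σ x', fun x' _ => hσ x', ?_⟩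
    have h1 : ∑ x' ∈ X.attach, (if (x' : O) = x0 then 0 else σ x' * (x - x')) =
        ∑ x' ∈ X.erase x0, σ x' * (x - x') := by
      rw [Finset.sum_attach X (fun x' => if x' = x0 then 0 else σ x' * (x - x')),
        ← Finset.sum_erase_add X _ hx0, if_pos rfl, add_zero]
      refine Finset.sum_congr rfl fun x' hx' => ?_
      rw [if_neg (Finset.ne_of_mem_erase hx')]
    simp only [h1]
  refine ⟨max (2 * S) R1, fun R hR => ?_⟩
  have hR2 : 2 * S ≤ R := (le_max_left _ _).trans hR
  have hR3 : R1 ≤ R := (le_max_right _ _).trans hR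
  intro x0 hx0 l0 hl0
  obtain ⟨c, hc, hl0e⟩ := hl0
  choose s hs hse using fun (x : O) (i : Fin D) => clamp hR2 (c x i) (hc x i)
  set m : O → O := fun x => ∑ i, c x i • g i with hm
  set σ : O → O := fun x => ∑ i, s x i • g i with hσ
  have hσM : ∀ x, σ x ∈ MM g S := fun x => ⟨s x, hs x, rfl⟩
  refine ⟨∑ x ∈ X.erase x0, Lam x (m x + σ x), ?_, ?_⟩
  · -- the translates lie in the net
    intro l' hl'
    obtain ⟨x1, hx1, x2, hx2, h12⟩ : ∃ x1 ∈ X.erase x0, ∃ x2 ∈ X.erase x0, x1 ≠ x2 := by
      have : 1 < (X.erase x0).card := by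
        rw [Finset.card_erase_of_mem hx0]; omega
      exact Finset.one_lt_card.1 this
    have hx1X := Finset.mem_of_mem_erase hx1
    have hx2X := Finset.mem_of_mem_erase hx2
    obtain ⟨a1, ha1, hn1⟩ := hS l' hl' x1 hx1X x2 hx2X
    obtain ⟨a2, ha2, hn2⟩ := hS l' hl' x2 hx2X x1 hx1X
    refine ⟨fun x i => if x = x0 then 0 else c x i + s x i +
      (if x = x1 then a1 i else if x = x2 then a2 i else 0), fun x i => ?_, ?_⟩
    · by_cases hxx : x = x0
      · simp [hxx]
      · simp only [hxx, if_false]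
        refine hse x i _ ?_
        split_ifs
        · exact ha1 i
        · exact ha2 i
        · simp
    · rw [← Finset.sum_erase_add X _ hx0]
      have h0 : Lam x0 (∑ i, (if x0 = x0 then (0 : ℤ) else c x0 i + s x0 i +
          (if x0 = x1 then a1 i else if x0 = x2 then a2 i else 0)) • g i) = 0 := by
        simp [Lam_zero]
      rw [h0, add_zero]
      have h4 : ∀ x ∈ X.erase x0, Lam x (∑ i, (if x = x0 then (0 : ℤ) else c x i + s x i +
          (if x = x1 then a1 i else if x = x2 then a2 i else 0)) • g i) =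
          Lam x (m x + σ x) + ((if x = x1 then Lam x1 (Ring.inverse (x2 - x1) * ev l' x2) else 0) +
            (if x = x2 then Lam x2 (Ring.inverse (x1 - x2) * ev l' x1) else 0)) := by
        intro x hx
        have hxx := Finset.ne_of_mem_erase hx
        simp only [hxx, if_false]
        by_cases e1 : x = x1
        · subst e1
          simp only [if_true, h12, if_false, add_zero]
          rw [hn1, ← Lam_add]
          congr 1
          simp only [hm, hσ, add_smul, Finset.sum_add_distrib]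
        · by_cases e2 : x = x2
          · subst e2
            simp only [e1, if_false, if_true, zero_add]
            rw [hn2, ← Lam_add]
            congr 1
            simp only [hm, hσ, add_smul, Finset.sum_add_distrib]
          · simp only [e1, e2, if_false, add_zero]
            congr 1
            simp only [hm, hσ, add_smul, Finset.sum_add_distrib]
      rw [Finset.sum_congr rfl h4, Finset.sum_add_distrib, Finset.sum_add_distrib,
        Finset.sum_ite_eq' (X.erase x0) x1 (fun _ => Lam x1 (Ring.inverse (x2 - x1) * ev l' x2)),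
        Finset.sum_ite_eq' (X.erase x0) x2 (fun _ => Lam x2 (Ring.inverse (x1 - x2) * ev l' x1)),
        if_pos hx1, if_pos hx2, ← split x1 x2 (hX x1 hx1X x2 hx2X h12) l']
  · -- the lines of the join
    intro x hx hxx l' hl'
    obtain ⟨b, hb, hbe⟩ := hR1 l' hl' x0 hx0 x hx σ hσM
    set μ : O := Ring.inverse (x - x0) *
      (∑ x' ∈ X.erase x0, σ x' * (x - x') + ev l' x) with hμ
    have hμe : μ * (x - x0) = ∑ x' ∈ X.erase x0, σ x' * (x - x') + ev l' x := by
      have h1 := Ring.inverse_mul_cancel _ (hX x hx x0 hx0 hxx)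
      rw [hμ]
      linear_combination (∑ x' ∈ X.erase x0, σ x' * (x - x') + ev l' x) * h1
    refine ⟨∑ x' ∈ X.erase x0, Lam x' (m x') + Lam x0 μ, ?_, ?_, ?_⟩
    · refine ⟨fun x' i => if x' = x0 then b i else c x' i, fun x' i => ?_, ?_⟩
      · by_cases h5 : x' = x0
        · simp only [h5, if_true]
          exact (hb i).trans (by exact_mod_cast hR3)
        · simp only [h5, if_false]
          exact hc x' i
      · rw [← Finset.sum_erase_add X _ hx0]
        congr 1
        · refine Finset.sum_congr rfl fun x' hx' => ?_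
          simp only [Finset.ne_of_mem_erase hx', if_false, hm]
        · simp only [if_true]
          rw [hbe]
    · rw [hl0e, ← Finset.sum_erase_add X _ hx0, ev_add, ev_add, ev_Lam, ev_Lam]
      simp only [sub_self, mul_zero, hm]
    · rw [ev_add, ev_add, ev_sum, ev_sum, ev_Lam, hμe, ← add_assoc, ← Finset.sum_add_distrib]
      congr 1
      refine Finset.sum_congr rfl fun x' _ => ?_
      rw [ev_Lam, ev_Lam]
      ring

end Pool.Agent.K3h29.SP
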