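import Pool.Agent.K3h29.SP.Stm

/-!
# Brick LAST for S11677: the final assembly
-/

set_option autoImplicit false

namespace Pool.Agent.K3h29.SP

theorem rank_sub_le {F α β α' β' : Type} [Field F] [Fintype α] [Fintype β] [Fintype α'] [Fintype β']
    (B : Matrix α β F) (f : α' → α) (g : β' → β) : (B.submatrix f g).rank ≤ B.rank := by
  classical
  have h : B.submatrix f g =
      ((1 : Matrix α α F).submatrix f id * B) * (1 : Matrix β β F).submatrix id g := by
    ext i j
    simp [Matrix.mul_apply, Matrix.one_apply]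
  rw [h]
  exact (Matrix.rank_mul_le_left _ _).trans (Matrix.rank_mul_le_right _ _)

theorem rank_sub_eq {F α β α' β' : Type} [Field F] [Fintype α] [Fintype β] [Fintype α'] [Fintype β']
    (B : Matrix α β F) (f : α' ≃ α) (g : β' ≃ β) : (B.submatrix f g).rank = B.rank := by
  apply le_antisymm (rank_sub_le B f g)
  have h : B = (B.submatrix f g).submatrix f.symm g.symm := by
    ext i j
    simp
  conv_lhs => rw [h]
  exact rank_sub_le _ _ _

/-- the signed incidences of a point and a line -/
noncomputable def inc (O : Subring ℝ) (q l : O × O) : ℝ := ((q.2 - ev l q.1 : O) : ℝ)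

theorem inc_zero {O : Subring ℝ} {q l : O × O} : inc O q l = 0 ↔ q.2 = ev l q.1 := by
  unfold inc
  rw [← sub_eq_zero (a := q.2)]
  exact ZeroMemClass.coe_eq_zero

theorem last : LastStm := by
  classical
  intro hRing hNo hFact hIvt hTri k hk
  obtain ⟨N, hN⟩ := hNo k
  obtain ⟨O, X, hfin, hcard, hUD⟩ := hRing (max N 2)
  have := hfin
  obtain ⟨L, hL⟩ := hN O X hUD ((le_max_left _ _).trans hcard)
  obtain ⟨x1, hx1, x2, hx2, hne⟩ := Finset.one_lt_card.mp
    (lt_of_lt_of_le Nat.one_lt_two ((le_max_right N 2).trans hcard))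
  let l1 : O × O := (1, 0)
  let l2 : O × O := (-x1, 1)
  let l3 : O × O := 0
  let q1 : O × O := (x1, 0)
  let q2 : O × O := (x2, 0)
  let q3 : O × O := (x1, 1)
  let L1 : Finset (O × O) := L ∪ {l1, l2, l3}
  let P : Finset (O × O) := (X ×ˢ L1).image fun a => (a.1, ev a.2 a.1)
  have hLL : L ⊆ L1 := Finset.subset_union_left
  have hT0 : ({l1, l2, l3} : Finset (O × O)) ⊆ L1 := Finset.subset_union_right
  have hl1 : l1 ∈ L1 := hT0 (by simp)
  have hl3 : l3 ∈ L1 := hT0 (by simp)
  have hP : ∀ x ∈ X, ∀ l ∈ L1, (x, ev l x) ∈ P := fun x hx l hl =>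
    Finset.mem_image.mpr ⟨(x, l), Finset.mem_product.mpr ⟨hx, hl⟩, rfl⟩
  have hq1 : q1 ∈ P := by
    have h := hP x1 hx1 l3 hl3
    have e : ev l3 x1 = 0 := by simp [ev, l3]
    rwa [e] at h
  have hq2 : q2 ∈ P := by
    have h := hP x2 hx2 l3 hl3
    have e : ev l3 x2 = 0 := by simp [ev, l3]
    rwa [e] at h
  have hq3 : q3 ∈ P := by
    have h := hP x1 hx1 l1 hl1
    have e : ev l1 x1 = 1 := by simp [ev, l1]
    rwa [e] at h
  have hS0 : ({q1, q2, q3} : Finset (O × O)) ⊆ P := by
    intro q hq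
    simp only [Finset.mem_insert, Finset.mem_singleton] at hq
    rcases hq with rfl | rfl | rfl
    · exact hq1
    · exact hq2
    · exact hq3
  have hc3 : ({q1, q2, q3} : Finset (O × O)).card ≤ k := Finset.card_le_three.trans (by omega)
  -- the rational rank of the whole configuration
  have hbig : ∀ B : Matrix P L1 ℚ,
      (∀ i j, SignType.sign (B i j) = SignType.sign (inc O i j)) → k ≤ B.rank := by
    intro B hB
    by_contra hlt
    obtain ⟨u, v, huv⟩ := hFact P L1 k B (by omega)
    apply hL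
    refine ⟨fun x y => if h : (x, y) ∈ P then u ⟨(x, y), h⟩ else 0,
      fun l => if h : l ∈ L1 then v ⟨l, h⟩ else 0, fun x hx l hl l' hl' => ?_⟩
    have h1 := hP x hx l' (hLL hl')
    dsimp only
    rw [dif_pos h1, dif_pos (hLL hl), huv]
    have h2 := hB ⟨(x, ev l' x), h1⟩ ⟨l, hLL hl⟩
    rw [← sign_eq_zero_iff, h2, sign_eq_zero_iff]
    exact inc_zero
  obtain ⟨S, T, hS, hT, ⟨B0, hB0, hB0r⟩, hmin⟩ :=
    hIvt (O × O) (O × O) (inc O) {q1, q2, q3} P {l1, l2, l3} L1 k hS0 hT0 hc3 hbig
  -- real matrices have rank at least three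
  have hreal : ∀ B : Matrix S T ℝ,
      (∀ i j, SignType.sign (B i j) = SignType.sign (inc O i j)) → 3 ≤ B.rank := by
    intro B hB
    have hB' : ∀ (i : S) (j : T), B i j = 0 ↔ inc O i j = 0 := by
      intro i j
      rw [← sign_eq_zero_iff, hB, sign_eq_zero_iff]
    refine hTri S T B ![⟨q1, hS (by simp)⟩, ⟨q2, hS (by simp)⟩, ⟨q3, hS (by simp)⟩]
      ![⟨l1, hT (by simp)⟩, ⟨l2, hT (by simp)⟩, ⟨l3, hT (by simp)⟩] ?_ ?_
    · intro i
      rw [Ne, hB', inc_zero]
      fin_cases i
      · simp [ev, q1, l1]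
      · simp only [Fin.mk_one, Matrix.cons_val_one, Matrix.cons_val_zero]
        intro h
        apply hne
        have h' : (0 : O) = -x1 + 1 * x2 := h
        have h2 : x1 = x1 + (-x1 + 1 * x2) := by
          rw [← h', add_zero]
        rw [h2]
        ring
      · simp [ev, q3, l3]
    · intro i j hij
      rw [hB', inc_zero]
      fin_cases i <;> fin_cases j
      · exact absurd hij (by decide)
      · simp [ev, q1, l2]
      · simp [ev, q1, l3]
      · exact absurd hij (by decide)
      · exact absurd hij (by decide)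
      · simp [ev, q2, l3]
      · exact absurd hij (by decide)
      · exact absurd hij (by decide)
      · exact absurd hij (by decide)
  have hM3 : (Matrix.of fun (i : S) (j : T) => inc O i j).rank ≤ 3 := by
    have h : (Matrix.of fun (i : S) (j : T) => inc O i j) =
        (Matrix.of fun (i : S) (a : Fin 3) =>
          (![((i : O × O).2 : ℝ), -1, -((i : O × O).1 : ℝ)] : Fin 3 → ℝ) a) *
        (Matrix.of fun (a : Fin 3) (j : T) =>
          (![1, ((j : O × O).1 : ℝ), ((j : O × O).2 : ℝ)] : Fin 3 → ℝ) a) := by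
      ext i j
      rw [Matrix.mul_apply, Fin.sum_univ_three]
      simp only [Matrix.of_apply, inc, ev]
      simp
      ring
    rw [h]
    refine (Matrix.rank_mul_le_left _ _).trans ((Matrix.rank_le_card_width _).trans ?_)
    rw [Fintype.card_fin]
  let e : Fin S.card ≃ S := S.equivFin.symm
  let e' : Fin T.card ≃ T := T.equivFin.symm
  refine ⟨S.card, T.card, fun i j => SignType.sign (inc O (e i) (e' j)), ?_, ?_, ?_, ?_⟩
  · refine ⟨(Matrix.of fun (i : S) (j : T) => inc O i j).submatrix e e', fun i j => rfl, ?_⟩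
    rw [rank_sub_eq]
    exact le_antisymm hM3 (hreal _ fun i j => rfl)
  · intro B hB
    rw [← rank_sub_eq B e.symm e'.symm]
    refine hreal _ fun i j => ?_
    rw [Matrix.submatrix_apply, hB]
    simp
  · refine ⟨B0.submatrix e e', fun i j => hB0 _ _, ?_⟩
    rw [rank_sub_eq, hB0r]
  · intro B hB
    rw [← rank_sub_eq B e.symm e'.symm]
    refine hmin _ fun i j => ?_
    rw [Matrix.submatrix_apply, hB]
    simp

end Pool.Agent.K3h29.SP
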