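import Mathlib
import Pool.Agent.K3h29.SP.Stm

/-! Brick LEMA: a common matrix `B` on a connected set of lines. -/

set_option autoImplicit false

namespace Pool.Agent.K3h29.SP

theorem res_eq {ι : Type} (T : Finset ι) (B B' : ι → ι → ℤ) (w : ι → ℤ) (j : ι) :
    res T B w j = res T B' w j + ∑ i ∈ T, (B' j i - B j i) * w i := by
  unfold res
  have h : ∑ i ∈ T, (B' j i - B j i) * w i = ∑ i ∈ T, B' j i * w i - ∑ i ∈ T, B j i * w i := by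
    rw [← Finset.sum_sub_distrib]
    exact Finset.sum_congr rfl fun i _ => by ring
  rw [h]
  ring

/-- the quotient of the residue by `2 ^ k`, modulo 2 -/
theorem chi_eq {ι : Type} [DecidableEq ι] (T : Finset ι) (B B' : ι → ι → ℤ) (k : ℕ) (w : ι → ℤ)
    (j i : ι) (hi : i ∈ T) (E : ι → ℤ) (hE : ∀ i' ∈ T, B' j i' - B j i' = 2 ^ k * E i')
    (hr : (2 : ℤ) ^ (k + 1) ∣ res T B' w j) (hw : Dg i w) :
    ((res T B w j / 2 ^ k : ℤ) : ZMod 2) = ((E i : ℤ) : ZMod 2) := by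
  obtain ⟨q, hq⟩ := hr
  have h1 : res T B w j = 2 ^ k * (2 * q + ∑ i' ∈ T, E i' * w i') := by
    rw [res_eq T B B' w j, hq, mul_add, Finset.mul_sum]
    have h2 : ∑ i' ∈ T, (B' j i' - B j i') * w i' = ∑ i' ∈ T, 2 ^ k * (E i' * w i') := by
      refine Finset.sum_congr rfl fun i' hi' => ?_
      rw [hE i' hi']
      ring
    rw [h2]
    ring
  rw [h1, Int.mul_ediv_cancel_left _ (by positivity)]
  have h3 : ∑ i' ∈ T, ((E i' : ℤ) : ZMod 2) * ((w i' : ℤ) : ZMod 2) = ((E i : ℤ) : ZMod 2) := by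
    rw [Finset.sum_eq_single i]
    · rw [hw i, if_pos rfl, mul_one]
    · intro b _ hb
      rw [hw b, if_neg (Ne.symm hb), mul_zero]
    · intro h
      exact absurd hi h
  have h4 : ((2 : ℤ) : ZMod 2) = 0 := by decide
  push_cast
  push_cast at h4
  rw [h4, zero_mul, zero_add]
  exact h3

theorem lemA0 : LemAStm := by
  intro O _ ι _ _ X T L In u K hC hX hcard hD hB
  classical
  rcases L.eq_empty_or_nonempty with rfl | ⟨ℓ₀, hℓ₀⟩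
  · exact ⟨0, fun ℓ hℓ => absurd hℓ (Finset.notMem_empty ℓ)⟩
  choose! Bl hBl using hB
  have key : ∀ k ≤ K, ∀ ℓ ∈ L, ∀ ℓ' ∈ L, ∀ j, j ∉ T → ∀ i ∈ T,
      (2 : ℤ) ^ k ∣ Bl ℓ j i - Bl ℓ' j i := by
    intro k
    induction k with
    | zero =>
      intro _ ℓ _ ℓ' _ j _ i _
      rw [pow_zero]
      exact one_dvd _
    | succ k ih =>
      intro hk ℓ hℓ ℓ' hℓ' j hj i hi
      have ih' := ih (by omega)
      have hex : ∀ ℓ₁ ∈ L, ∀ i' ∈ T, ∃ E : ℤ, Bl ℓ₁ j i' - Bl ℓ' j i' = 2 ^ k * E :=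
        fun ℓ₁ h₁ i' hi' => ih' ℓ₁ h₁ ℓ' hℓ' j hj i' hi'
      choose! E hE using hex
      obtain ⟨x, hx, x', hx', hne⟩ := Finset.one_lt_card.1 (lt_of_lt_of_le one_lt_two (hcard i hi))
      have hchi : ∀ ℓ₁ ∈ L, ∀ y ∈ In i,
          ((res T (Bl ℓ') (u y (ev ℓ₁ y)) j / 2 ^ k : ℤ) : ZMod 2) = ((E ℓ₁ i : ℤ) : ZMod 2) := by
        intro ℓ₁ h₁ y hy
        refine chi_eq T (Bl ℓ') (Bl ℓ₁) k _ j i hi (E ℓ₁) (hE ℓ₁ h₁) ?_ (hD i hi y hy ℓ₁ h₁)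
        exact (pow_dvd_pow 2 hk).trans (hBl ℓ₁ h₁ i hi y hy j hj)
      have hc := hC x (hX i hi hx) x' (hX i hi hx') hne (ZMod 2)
        (fun y => ((res T (Bl ℓ') (u x y) j / 2 ^ k : ℤ) : ZMod 2))
        (fun y => ((res T (Bl ℓ') (u x' y) j / 2 ^ k : ℤ) : ZMod 2))
        (fun ℓ₁ h₁ => by
          have h₁' : ℓ₁ ∈ L := h₁
          exact (hchi ℓ₁ h₁' x hx).trans (hchi ℓ₁ h₁' x' hx').symm)
        ℓ hℓ ℓ' hℓ'
      have h1 : ((E ℓ i : ℤ) : ZMod 2) = ((E ℓ' i : ℤ) : ZMod 2) :=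
        (hchi ℓ hℓ x hx).symm.trans (hc.trans (hchi ℓ' hℓ' x hx))
      have h2 : E ℓ' i = 0 := by
        have := hE ℓ' hℓ' i hi
        rw [sub_self] at this
        have h3 : (2 : ℤ) ^ k ≠ 0 := by positivity
        exact (mul_eq_zero.1 this.symm).resolve_left h3
      rw [h2, Int.cast_zero] at h1
      obtain ⟨q, hq⟩ := (ZMod.intCast_zmod_eq_zero_iff_dvd _ 2).1 h1
      rw [hE ℓ hℓ i hi, hq]
      exact ⟨q, by push_cast; ring⟩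
  refine ⟨Bl ℓ₀, fun ℓ hℓ i hi x hx j hj => ?_⟩
  rw [res_eq T (Bl ℓ₀) (Bl ℓ) _ j]
  refine dvd_add (hBl ℓ hℓ i hi x hx j hj) (Finset.dvd_sum fun i' hi' => ?_)
  exact (key K le_rfl ℓ hℓ ℓ₀ hℓ₀ j hj i' hi').mul_right _

/-- Brick LEMA. -/
theorem lemA (_hU : UnqStm) : LemAStm := lemA0

end Pool.Agent.K3h29.SP
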