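import Pool.Agent.K3h29.SP.Stm

set_option autoImplicit false

namespace Pool.Agent.K3h29.SP

open Finset

theorem res_add {ι : Type} (T : Finset ι) (B E : ι → ι → ℤ) (κ : ℕ) (z : ι → ℤ) (j : ι) :
    res T (fun j i => B j i + 2 ^ κ * E j i) z j =
      res T B z j - 2 ^ κ * ∑ i ∈ T, E j i * z i := by
  unfold res
  rw [mul_sum, sub_sub, ← sum_add_distrib]
  congr 1
  exact sum_congr rfl fun i _ => by ring

theorem lemB : LemBStm := by
  classical
  intro ι _ _ T m hm E C w hC hD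
  set s := Fintype.card ι with hs
  set m2 := 2 ^ s * m with hm2
  have hmm2 : m ≤ m2 := Nat.le_mul_of_pos_left m (by positivity)
  have hm2' : m2 ≤ 2 ^ s * m2 := Nat.le_mul_of_pos_left m2 (by positivity)
  let Sx : ι → ℕ → (ι → ι → ℤ) → Finset E := fun i K B => (C i).filter fun x => Cg T B K (w x)
  have hSx : ∀ i K B x, x ∈ Sx i K B ↔ x ∈ C i ∧ Cg T B K (w x) := fun i K B x => mem_filter
  by_cases hP : ∀ K : ℕ, ∃ B : ι → ι → ℤ, ∀ i ∈ T, m2 ≤ (Sx i K B).card
  · left
    choose B hB using hP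
    let Y : Finset (ι → Finset E) := Fintype.piFinset fun i => (C i).powerset
    have hY : ∀ K, (fun i => Sx i K (B K)) ∈ Y := by
      intro K
      rw [Fintype.mem_piFinset]
      intro i
      rw [mem_powerset]
      exact filter_subset _ _
    obtain ⟨S, hS⟩ := Finite.exists_infinite_fiber
      (fun K : ℕ => (⟨fun i => Sx i K (B K), hY K⟩ : Y))
    have hS' := Set.infinite_coe_iff.mp hS
    have key : ∀ K : ℕ, ∃ K', K < K' ∧ ∀ i, S.1 i = Sx i K' (B K') := by
      intro K
      obtain ⟨K', hK', hlt⟩ := hS'.exists_gt K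
      refine ⟨K', hlt, fun i => ?_⟩
      have h1 : (⟨fun i => Sx i K' (B K'), hY K'⟩ : Y) = S := hK'
      rw [← h1]
    refine ⟨S.1, fun i hi => ?_, fun K => ?_⟩
    · obtain ⟨K', -, h⟩ := key 0
      rw [h i]
      exact ⟨filter_subset _ _, hmm2.trans (hB K' i hi)⟩
    · obtain ⟨K', hK, h⟩ := key K
      refine ⟨B K', fun i hi x hx j hj => ?_⟩
      rw [h i, hSx] at hx
      exact (pow_dvd_pow 2 hK.le).trans (hx.2 j hj)
  · right
    have hN : ∃ K : ℕ, ¬ ∃ B : ι → ι → ℤ, ∀ i ∈ T, m2 ≤ (Sx i K B).card := by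
      push Not at hP ⊢
      exact hP
    obtain ⟨κ, ⟨B, hB⟩, hκ⟩ : ∃ κ : ℕ, (∃ B : ι → ι → ℤ, ∀ i ∈ T, m2 ≤ (Sx i κ B).card) ∧
        ¬ ∃ B : ι → ι → ℤ, ∀ i ∈ T, m2 ≤ (Sx i (κ + 1) B).card := by
      have h1 := Nat.find_spec hN
      have h2 : ∀ K < Nat.find hN, ¬¬ ∃ B : ι → ι → ℤ, ∀ i ∈ T, m2 ≤ (Sx i K B).card :=
        fun K hK => Nat.find_min hN hK
      have h0 : Nat.find hN ≠ 0 := by
        intro h0
        rw [h0] at h1
        apply h1
        refine ⟨0, fun i hi => ?_⟩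
        have h3 : Sx i 0 0 = C i := by
          ext x
          rw [hSx]
          refine ⟨fun h => h.1, fun h => ⟨h, fun j _ => ?_⟩⟩
          rw [pow_zero]
          exact one_dvd _
        rw [h3]
        have := hC i hi
        omega
      obtain ⟨κ, hκ⟩ := Nat.exists_eq_succ_of_ne_zero h0
      refine ⟨κ, not_not.mp (h2 κ (by omega)), ?_⟩
      rw [hκ] at h1
      exact h1
    -- the classes modulo two
    let d : E → ι → ZMod 2 := fun x j =>
      if j ∈ T then 0 else ((res T B (w x) j / 2 ^ κ : ℤ) : ZMod 2)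
    have hcard : Fintype.card (ι → ZMod 2) = 2 ^ s := by
      rw [Fintype.card_fun, ZMod.card]
    choose D hDu hDm using fun i : ι => Finset.exists_max_image (univ : Finset (ι → ZMod 2))
      (fun D => ((Sx i κ B).filter fun x => d x = D).card) univ_nonempty
    have hfib : ∀ i, (Sx i κ B).card ≤ 2 ^ s * ((Sx i κ B).filter fun x => d x = D i).card := by
      intro i
      rw [Finset.card_eq_sum_card_fiberwise (f := d) (t := univ) (fun x _ => mem_univ _)]
      calc _ ≤ ∑ _b : ι → ZMod 2, ((Sx i κ B).filter fun x => d x = D i).card :=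
            sum_le_sum fun b _ => hDm i b (mem_univ _)
        _ = _ := by rw [sum_const, card_univ, hcard, smul_eq_mul]
    set E' : ι → ι → ℤ := fun j i => ((D i j).val : ℤ) with hE'
    set B' : ι → ι → ℤ := fun j i => B j i + 2 ^ κ * E' j i with hB'
    have ha : ∀ z, Cg T B' κ z ↔ Cg T B κ z := by
      intro z
      refine forall₂_congr fun j _ => ?_
      rw [hB', res_add]
      exact dvd_sub_left (dvd_mul_right _ _)
    have hb : ∀ i ∈ T, ∀ x ∈ Sx i κ B, d x = D i → Cg T B' (κ + 1) (w x) := by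
      intro i hi x hx hdx j hj
      rw [hSx] at hx
      obtain ⟨q, hq⟩ := hx.2 j hj
      have h2k : (2 : ℤ) ^ κ ≠ 0 := by positivity
      have hqd : res T B (w x) j / 2 ^ κ = q := by rw [hq]; exact Int.mul_ediv_cancel_left _ h2k
      have h1 : ((q : ℤ) : ZMod 2) = D i j := by
        rw [← hdx]
        simp only [d, if_neg hj, hqd]
      have h2 : ((∑ i' ∈ T, E' j i' * w x i' : ℤ) : ZMod 2) = D i j := by
        rw [Int.cast_sum, sum_eq_single i]
        · rw [Int.cast_mul, hD i hi x hx.1 i, if_pos rfl, mul_one, hE']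
          simp
        · intro b _ hbi
          rw [Int.cast_mul, hD i hi x hx.1 b, if_neg hbi.symm, mul_zero]
        · intro h
          exact absurd hi h
      have h3 : (2 : ℤ) ∣ q - ∑ i' ∈ T, E' j i' * w x i' := by
        have h4 : ((q - ∑ i' ∈ T, E' j i' * w x i' : ℤ) : ZMod 2) = 0 := by
          rw [Int.cast_sub, h1, h2, sub_self]
        exact (ZMod.intCast_zmod_eq_zero_iff_dvd _ 2).mp h4
      rw [hB', res_add, hq, ← mul_sub, pow_succ]
      exact mul_dvd_mul_left _ h3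
    have hin : ∀ i ∈ T, ((Sx i κ B).filter fun x => d x = D i) ⊆ Sx i (κ + 1) B' := by
      intro i hi x hx
      rw [mem_filter] at hx
      rw [hSx]
      exact ⟨((hSx _ _ _ _).mp hx.1).1, hb i hi x hx.1 hx.2⟩
    have hsub : ∀ i, Sx i (κ + 1) B' ⊆ Sx i κ B := by
      intro i x hx
      rw [hSx] at hx ⊢
      refine ⟨hx.1, (ha _).mp fun j hj => (pow_dvd_pow 2 (Nat.le_succ κ)).trans (hx.2 j hj)⟩
    have hmin : ∀ i ∈ T, m ≤ (Sx i (κ + 1) B').card := by
      intro i hi
      have h1 := hB i hi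
      have h2 := hfib i
      have h3 := card_le_card (hin i hi)
      have h4 : 2 ^ s * m ≤ 2 ^ s * ((Sx i κ B).filter fun x => d x = D i).card :=
        h1.trans h2
      exact (Nat.le_of_mul_le_mul_left h4 (by positivity)).trans h3
    push Not at hκ
    obtain ⟨i0, hi0, hlt⟩ := hκ B'
    have hne : ∃ x0 ∈ Sx i0 κ B, x0 ∉ Sx i0 (κ + 1) B' := by
      by_contra hcon
      push Not at hcon
      have h1 := card_le_card (show Sx i0 κ B ⊆ Sx i0 (κ + 1) B' from hcon)
      have h2 := hB i0 hi0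
      omega
    obtain ⟨x0, hx0, hx0'⟩ := hne
    rw [hSx] at hx0
    refine ⟨i0, hi0, fun i => Sx i (κ + 1) B', x0, C i0 \ Sx i0 κ B, fun i hi =>
      ⟨filter_subset _ _, hmin i hi⟩, hx0.1, sdiff_subset, ?_, ?_, κ, B', ?_, ?_, ?_, ?_⟩
    · have h1 : (Sx i0 κ B).card ≤ 2 ^ s * m2 := by
        refine (hfib i0).trans (Nat.mul_le_mul_left _ ?_)
        exact (card_le_card (hin i0 hi0)).trans hlt.le
      have h2 := hC i0 hi0
      have h3 := Finset.le_card_sdiff (Sx i0 κ B) (C i0)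
      omega
    · exact (disjoint_sdiff (s := Sx i0 κ B) (t := C i0)).mono_left (hsub i0)
    · intro i _ x hx
      exact ((hSx _ _ _ _).mp hx).2
    · exact (ha _).mpr hx0.2
    · intro h
      exact hx0' ((hSx _ _ _ _).mpr ⟨hx0.1, h⟩)
    · intro x hx h
      rw [mem_sdiff] at hx
      exact hx.2 ((hSx _ _ _ _).mpr ⟨hx.1, (ha _).mp h⟩)

end Pool.Agent.K3h29.SP
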