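import Pool.Agent.K3h29.SP.Stm

/-!
Assembly of the combinatorial core of S11677: no integer realization of dimension `s` of the
point-line net exists when the net has sufficiently many slices.
-/

set_option autoImplicit false

namespace Pool.Agent.K3h29.SP

section basics

variable {O : Type} [CommRing O]

theorem ev_add' (a b : O × O) (x : O) : ev (a + b) x = ev a x + ev b x := by
  simp only [ev, Prod.fst_add, Prod.snd_add]; ring

theorem ev_nsmul' (n : ℕ) (a : O × O) (x : O) : ev (n • a) x = n • ev a x := by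
  simp only [ev, Prod.smul_fst, Prod.smul_snd]
  simp only [nsmul_eq_mul]; ring

theorem ev_zero' (x : O) : ev (0 : O × O) x = 0 := by simp [ev]

theorem ev_one' (x : O) : ev ((1, 0) : O × O) x = 1 := by simp [ev]

variable {ι : Type} [Fintype ι] [DecidableEq ι]

theorem Exact.mono {L L' : Finset (O × O)} (h : L ⊆ L') {u : O → O → ι → ℤ}
    {v : O × O → ι → ℤ} {x : O} (hx : Exact L' u v x) : Exact L u v x :=
  fun ℓ hℓ ℓ' hℓ' => hx ℓ (h hℓ) ℓ' (h hℓ')

theorem Vis.mono {X : Finset O} {T : Finset ι} {m m' : ℕ} (hm : m ≤ m')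
    {L L' : Finset (O × O)} (h : L ⊆ L') {C : ι → Finset O} {u : O → O → ι → ℤ}
    {v : O × O → ι → ℤ} (hx : Vis X T m' L' C u v) : Vis X T m L C u v where
  sub := hx.sub
  card := fun i hi => hm.trans (hx.card i hi)
  disj := hx.disj
  exact := fun i hi x hx' => (hx.exact i hi x hx').mono h
  diag := fun i hi x hx' ℓ hℓ => hx.diag i hi x hx' ℓ (h hℓ)

theorem Mid.mono {X : Finset O} {T : Finset ι} {m m' : ℕ} (hm : m ≤ m')
    {L L' : Finset (O × O)} (h : L ⊆ L') {In : ι → Finset O} {Out : Finset O}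
    {u : O → O → ι → ℤ} {v : O × O → ι → ℤ} (hx : Mid X T m' L' In Out u v) :
    Mid X T m L In Out u v where
  vis := hx.vis.mono hm h
  osub := hx.osub
  ocard := hm.trans hx.ocard
  odisj := hx.odisj
  oexact := fun x hx' => (hx.oexact x hx').mono h
  out := fun x hx' ℓ hℓ => hx.out x hx' ℓ (h hℓ)

theorem Vis.pull [IsDomain O] [CharZero O] {X : Finset O} {T : Finset ι} {m : ℕ}
    {L L' : Finset (O × O)} {C : ι → Finset O} {u : O → O → ι → ℤ}
    {v : O × O → ι → ℤ} (hx : Vis X T m L' C u v) {a : ℕ} (ha : 0 < a) {b : O × O}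
    (hab : ∀ s ∈ L, a • s + b ∈ L') :
    Vis X T m L C (fun x y => u x (a • y + ev b x)) (fun ℓ => v (a • ℓ + b)) where
  sub := hx.sub
  card := hx.card
  disj := hx.disj
  exact := by
    intro i hi x hxx ℓ hℓ ℓ' hℓ'
    have h := hx.exact i hi x hxx _ (hab ℓ hℓ) _ (hab ℓ' hℓ')
    rw [ev_add', ev_nsmul', ev_add', ev_nsmul'] at h
    rw [h]
    constructor
    · intro h1
      have h2 : a • ev ℓ' x = a • ev ℓ x := add_right_cancel h1
      rw [nsmul_eq_mul, nsmul_eq_mul] at h2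
      exact mul_left_cancel₀ (by exact_mod_cast ha.ne') h2
    · intro h1
      rw [h1]
  diag := by
    intro i hi x hxx ℓ hℓ
    have h := hx.diag i hi x hxx _ (hab ℓ hℓ)
    rw [ev_add', ev_nsmul'] at h
    exact h

end basics

section lemC

variable {O : Type} [CommRing O]

theorem netL_finite (X : Finset O) {D : ℕ} (g : Fin D → O) (R : ℕ) : (netL X g R).Finite := by
  classical
  let F : (X → Fin D → Set.Icc (-(R:ℤ)) R) → O × O := fun c =>
    ∑ x ∈ X.attach, Lam x.1 (∑ i, (c x i : ℤ) • g i)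
  have hfin : (Set.range F).Finite := Set.finite_range F
  refine hfin.subset ?_
  rintro ℓ ⟨c, hc, rfl⟩
  refine ⟨fun x i => ⟨c x.1 i, abs_le.mp (hc x.1 i)⟩, ?_⟩
  simp only [F]
  exact Finset.sum_attach X (fun x => Lam x (∑ i, c x i • g i))

theorem netL_zero (X : Finset O) {D : ℕ} (g : Fin D → O) (R : ℕ) : (0 : O × O) ∈ netL X g R := by
  refine ⟨fun _ _ => 0, fun x i => by simp, ?_⟩
  simp only [Lam, zero_smul, Finset.sum_const_zero, zero_mul, neg_zero]
  exact (Finset.sum_eq_zero (fun _ _ => rfl)).symm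

theorem netL_one (X : Finset O) (hX : UD X) (h2 : 2 ≤ X.card) {D : ℕ} (g : Fin D → O)
    (hg : Submodule.span ℤ (Set.range g) = ⊤) :
    ∃ R0 : ℕ, ∀ R ≥ R0, ((1, 0) : O × O) ∈ netL X g R := by
  classical
  obtain ⟨x1, hx1, x2, hx2, hne⟩ := Finset.one_lt_card.mp h2
  obtain ⟨w, hw⟩ := (hX x1 hx1 x2 hx2 hne).exists_right_inv
  have hmem : w ∈ Submodule.span ℤ (Set.range g) := by rw [hg]; trivial
  obtain ⟨c, hc⟩ := (Submodule.mem_span_range_iff_exists_fun ℤ).mp hmem
  obtain ⟨R0, hR0⟩ : ∃ R0 : ℕ, ∀ i, |c i| ≤ (R0 : ℤ) := by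
    refine ⟨∑ i, (c i).natAbs, fun i => ?_⟩
    have : (c i).natAbs ≤ ∑ i, (c i).natAbs :=
      Finset.single_le_sum (f := fun i => (c i).natAbs) (fun _ _ => Nat.zero_le _) (Finset.mem_univ i)
    rw [Int.abs_eq_natAbs]
    exact_mod_cast this
  refine ⟨R0, fun R hR => ⟨fun x i => if x = x1 then - c i else if x = x2 then c i else 0, ?_, ?_⟩⟩
  · intro x i
    have h1 : |c i| ≤ (R:ℤ) := (hR0 i).trans (by exact_mod_cast hR)
    dsimp only
    split_ifs
    · rwa [abs_neg]
    · exact h1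
    · simp
  · have hrest : ∀ x ∈ X, x ∉ ({x1, x2} : Finset O) →
        Lam x (∑ i, (if x = x1 then - c i else if x = x2 then c i else 0) • g i) = 0 := by
      intro x _ hx
      simp only [Finset.mem_insert, Finset.mem_singleton, not_or] at hx
      simp [hx.1, hx.2, Lam]
    rw [← Finset.sum_subset (s₁ := ({x1, x2} : Finset O)) (by
      intro x hx
      simp only [Finset.mem_insert, Finset.mem_singleton] at hx
      rcases hx with rfl | rfl <;> assumption) hrest]
    rw [Finset.sum_pair hne]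
    simp only [if_true, hne.symm, if_false]
    have e1 : ∑ i, (- c i) • g i = - w := by
      rw [← hc]; simp [neg_smul]
    rw [e1, hc]
    ext
    · simp only [Lam, Prod.fst_add]
      linear_combination (-1 : O) * hw
    · simp [Lam]

theorem lemC (hC : ConnStm) (hJ : JoinStm) [IsDomain O] [Module.Finite ℤ O] (X : Finset O)
    (hX : UD X) (h3 : 3 ≤ X.card) (L' : Finset (O × O)) :
    ∃ L : Finset (O × O), Conn X (↑L : Set (O × O)) ∧
      Join X (↑L' : Set (O × O)) (↑L : Set (O × O)) ∧ (0 : O × O) ∈ L ∧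
      ((1, 0) : O × O) ∈ L := by
  classical
  obtain ⟨D, g, hg⟩ := (Submodule.fg_iff_exists_fin_generating_family
    (N := (⊤ : Submodule ℤ O))).mp Module.Finite.fg_top
  obtain ⟨R1, h1⟩ := hC O X hX D g hg
  obtain ⟨R2, h2⟩ := hJ O X hX h3 D g hg L'
  obtain ⟨R3, h3'⟩ := netL_one X hX (by omega) g hg
  refine ⟨(netL_finite X g (R1 + R2 + R3)).toFinset, ?_, ?_, ?_, ?_⟩
  · rw [Set.Finite.coe_toFinset]; exact h1 _ (by omega)
  · rw [Set.Finite.coe_toFinset]; exact h2 _ (by omega)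
  · rw [Set.Finite.mem_toFinset]; exact netL_zero X g _
  · rw [Set.Finite.mem_toFinset]; exact h3' _ (by omega)

end lemC

section step

variable {O : Type} [CommRing O] [IsDomain O] [CharZero O] [Module.Finite ℤ O]
  {ι : Type} [Fintype ι] [DecidableEq ι]

/-- Number of slices needed for one step. -/
def nn (s m : ℕ) : ℕ := 2 ^ s * (2 ^ s * (2 ^ s * m)) + 2 ^ s * m

theorem step (hG : GalStm) (hC : ConnStm) (hJ : JoinStm) (hB : LemBStm) (h2 : Case2Stm)
    (h1 : Case1Stm) (hF : FinStm) (X : Finset O) (hX : UD X) (h3 : 3 ≤ X.card) (m : ℕ)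
    (hm : 0 < m) (L'' : Finset (O × O)) (hL'' : L''.Nonempty) :
    ∃ L : Finset (O × O), ∀ (T : Finset ι), T.Nonempty → ∀ (C : ι → Finset O)
      (u : O → O → ι → ℤ) (v : O × O → ι → ℤ), Vis X T (nn (Fintype.card ι) m) L C u v →
      ∃ j, j ∉ T ∧ ∃ (C' : ι → Finset O) (u' : O → O → ι → ℤ) (v' : O × O → ι → ℤ),
        Vis X (insert j T) m L'' C' u' v' := by
  classical
  obtain ⟨L1, hL1⟩ := hF O ι X m L'' hm hL''
  obtain ⟨L2, hL2C, hL2J, hL20, hL21⟩ := lemC hC hJ X hX h3 L1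
  let E : Type := {x // x ∈ X}
  let κ : Type := (ι → Finset E) ⊕ (ι × (ι → Finset E) × E × Finset E)
  have : Finite κ := by
    have : Finite E := inferInstance
    have : Finite (Finset E) := inferInstance
    infer_instance
  obtain ⟨L3, hL3⟩ := hG (O × O) κ L2
  refine ⟨L3, fun T hT C u v hV => ?_⟩
  set m1 := 2 ^ Fintype.card ι * m with hm1
  have hιne : 0 < Fintype.card ι := by
    obtain ⟨i, hi⟩ := hT
    exact Fintype.card_pos_iff.mpr ⟨i⟩
  have hm1two : 2 ≤ m1 := by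
    have : 2 ^ 1 ≤ 2 ^ Fintype.card ι := Nat.pow_le_pow_right (by norm_num) hιne
    calc 2 = 2 ^ 1 * 1 := by norm_num
      _ ≤ 2 ^ Fintype.card ι * m := Nat.mul_le_mul this hm
  let CE : ι → Finset E := fun i => (C i).subtype (· ∈ X)
  have hCEcard : ∀ i ∈ T, (CE i).card = (C i).card := by
    intro i hi
    rw [Finset.card_subtype, Finset.filter_true_of_mem (fun x hx => hV.sub i hi hx)]
  let G2 : O × O → (ι → Finset E) → Prop := fun ℓ S =>
    (∀ i ∈ T, S i ⊆ CE i ∧ m1 ≤ (S i).card) ∧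
      ∀ K : ℕ, ∃ B : ι → ι → ℤ, ∀ i ∈ T, ∀ x ∈ S i, Cg T B K (u x.1 (ev ℓ x.1))
  let G1 : O × O → (ι × (ι → Finset E) × E × Finset E) → Prop := fun ℓ d =>
    d.1 ∈ T ∧ (∀ i ∈ T, d.2.1 i ⊆ CE i ∧ m1 ≤ (d.2.1 i).card) ∧ d.2.2.1 ∈ CE d.1 ∧
      d.2.2.2 ⊆ CE d.1 ∧ m1 ≤ d.2.2.2.card ∧ Disjoint (d.2.1 d.1) d.2.2.2 ∧
      ∃ (c : ℕ) (B : ι → ι → ℤ),
        (∀ i ∈ T, ∀ x ∈ d.2.1 i, Cg T B (c + 1) (u x.1 (ev ℓ x.1))) ∧
        Cg T B c (u d.2.2.1.1 (ev ℓ d.2.2.1.1)) ∧
        ¬ Cg T B (c + 1) (u d.2.2.1.1 (ev ℓ d.2.2.1.1)) ∧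
        ∀ x ∈ d.2.2.2, ¬ Cg T B c (u x.1 (ev ℓ x.1))
  let G : O × O → κ → Prop := fun ℓ k => Sum.elim (G2 ℓ) (G1 ℓ) k
  have hGex : ∀ ℓ ∈ L3, ∃ k, G ℓ k := by
    intro ℓ hℓ
    have hb := hB ι T m1 (by omega) E CE (fun e => u e.1 (ev ℓ e.1)) (by
      intro i hi
      rw [hCEcard i hi]
      exact hV.card i hi) (by
      intro i hi x hx
      rw [Finset.mem_subtype] at hx
      exact hV.diag i hi x.1 hx ℓ hℓ)
    rcases hb with ⟨S, hS, hS'⟩ | ⟨i0, hi0, In, x0, Out, ha, hb, hc, hd, he, hf⟩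
    · exact ⟨Sum.inl S, hS, hS'⟩
    · exact ⟨Sum.inr (i0, In, x0, Out), hi0, ha, hb, hc, hd, he, hf⟩
  let col : O × O → κ := fun ℓ => if h : ∃ k, G ℓ k then h.choose else Sum.inl (fun _ => ∅)
  obtain ⟨a, ha, b, hab, c, hc⟩ := hL3 col
  have hVp := hV.pull ha hab
  have hGc : ∀ s ∈ L2, G (a • s + b) c := by
    intro s hs
    have h := hc s hs
    have hex := hGex _ (hab s hs)
    simp only [col] at h
    rw [dif_pos hex] at h
    rw [← h]
    exact hex.choose_spec
  have hev : ∀ (s : O × O) (x : O), a • ev s x + ev b x = ev (a • s + b) x := by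
    intro s x
    rw [ev_add', ev_nsmul']
  have hmapmem : ∀ (A : Finset E) (i : ι), A ⊆ CE i →
      A.map (Function.Embedding.subtype _) ⊆ C i := by
    intro A i hA x hx
    rw [Finset.mem_map] at hx
    obtain ⟨e, he, rfl⟩ := hx
    have := hA he
    rw [Finset.mem_subtype] at this
    exact this
  rcases c with S | ⟨i0, In, x0, Out⟩
  · exfalso
    have hG2 : ∀ s ∈ L2, G2 (a • s + b) S := hGc
    refine h2 O ι X T _ L2 C (fun i => (S i).map (Function.Embedding.subtype _)) _ _ hVp hL2C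
      hT hL20 hL21 zero_ne_one ?_ ?_
    · intro i hi
      refine ⟨hmapmem _ i ((hG2 0 hL20).1 i hi).1, ?_⟩
      rw [Finset.card_map]
      exact hm1two.trans ((hG2 0 hL20).1 i hi).2
    · intro ℓ hℓ K
      obtain ⟨B, hB'⟩ := (hG2 ℓ hℓ).2 K
      refine ⟨B, fun i hi x hx => ?_⟩
      rw [Finset.mem_map] at hx
      obtain ⟨e, he, rfl⟩ := hx
      have := hB' i hi e he
      rw [← hev] at this
      exact this
  · have hG1 : ∀ s ∈ L2, G1 (a • s + b) (i0, In, x0, Out) := hGc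
    obtain ⟨hi0, hIn, hx0, hOut, hOutc, hdis, -⟩ := hG1 0 hL20
    obtain ⟨u', v', hM⟩ := h1 O ι X T _ m1 L1 L2 C
      (fun i => (In i).map (Function.Embedding.subtype _)) _ _ i0 x0.1
      (Out.map (Function.Embedding.subtype _)) hVp hL2C hL2J ⟨0, hL20⟩ hm1two hi0
      (by
        intro i hi
        refine ⟨hmapmem _ i (hIn i hi).1, ?_⟩
        rw [Finset.card_map]
        exact (hIn i hi).2)
      (by
        have := hx0
        simp only [CE] at this
        rw [Finset.mem_subtype] at this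
        exact this)
      (hmapmem _ i0 hOut) (by rw [Finset.card_map]; exact hOutc)
      (by
        have := hdis
        simp only at this
        rw [Finset.disjoint_map]
        exact this)
      (by
        intro ℓ hℓ
        obtain ⟨-, -, -, -, -, -, c, B, k1, k2, k3, k4⟩ := hG1 ℓ hℓ
        refine ⟨c, B, ?_, ?_, ?_, ?_⟩
        · intro i hi x hx
          rw [Finset.mem_map] at hx
          obtain ⟨e, he, rfl⟩ := hx
          have := k1 i hi e he
          rw [← hev] at this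
          exact this
        · have := k2
          rw [← hev] at this
          exact this
        · have := k3
          rw [← hev] at this
          exact this
        · intro x hx
          rw [Finset.mem_map] at hx
          obtain ⟨e, he, rfl⟩ := hx
          have := k4 e he
          rw [← hev] at this
          exact this)
    exact hL1 T _ _ u' v' hM

end step

theorem chain (hG : GalStm) (hC : ConnStm) (hJ : JoinStm) (hB : LemBStm) (h2 : Case2Stm)
    (h1 : Case1Stm) (hF : FinStm) (hS : StartStm) (ι : Type) [Fintype ι] [DecidableEq ι]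
    (t : ℕ) : ∀ m : ℕ, 0 < m → ∃ N : ℕ, ∀ (O : Type) [CommRing O] [IsDomain O] [CharZero O]
      [Module.Finite ℤ O] (X : Finset O), UD X → N ≤ X.card → ∀ L : Finset (O × O),
      L.Nonempty → ∃ L' : Finset (O × O), ∀ (u : O → O → ι → ℤ) (v : O × O → ι → ℤ),
        (∀ x ∈ X, Exact L' u v x) → ∃ T : Finset ι, T.card = t + 1 ∧
          ∃ (C : ι → Finset O) (u' : O → O → ι → ℤ) (v' : O × O → ι → ℤ),
            Vis X T m L C u' v' := by
  classical
  induction t with
  | zero =>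
    intro m hm
    refine ⟨2 ^ Fintype.card ι * m, ?_⟩
    intro O _ _ _ _ X hX hN L hL
    obtain ⟨L1, hL1⟩ := hF O ι X m L hm hL
    refine ⟨L1 ∪ {0, (1, 0)}, fun u v hE => ?_⟩
    obtain ⟨u', hM⟩ := hS O ι X (L1 ∪ {0, (1, 0)}) u v (by simp) (by simp) zero_ne_one hE
    obtain ⟨j, hj, C, u'', v'', hV⟩ := hL1 ∅ _ _ _ _ (hM.mono hN Finset.subset_union_left)
    exact ⟨insert j ∅, by simp, C, u'', v'', hV⟩
  | succ t ih =>
    intro m hm
    obtain ⟨N, hN⟩ := ih (nn (Fintype.card ι) m) (by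
      unfold nn
      have : 0 < 2 ^ Fintype.card ι * m := by positivity
      omega)
    refine ⟨N + 3, ?_⟩
    intro O _ _ _ _ X hX hXN L hL
    obtain ⟨L1, hL1⟩ := step (ι := ι) hG hC hJ hB h2 h1 hF X hX (by omega) m hm L hL
    obtain ⟨L2, hL2⟩ := hN O X hX (by omega) (L1 ∪ {0}) ⟨0, by simp⟩
    refine ⟨L2, fun u v hE => ?_⟩
    obtain ⟨T, hT, C, u', v', hV⟩ := hL2 u v hE
    obtain ⟨j, hj, C', u'', v'', hV'⟩ := hL1 T (Finset.card_pos.mp (by omega)) C u' v'
      (hV.mono le_rfl Finset.subset_union_left)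
    exact ⟨insert j T, by rw [Finset.card_insert_of_notMem hj, hT], C', u'', v'', hV'⟩

theorem noReal (hG : GalStm) (hC : ConnStm) (hJ : JoinStm) (hB : LemBStm) (h2 : Case2Stm)
    (h1 : Case1Stm) (hF : FinStm) (hS : StartStm) : NoRealStm := by
  intro s
  obtain ⟨N, hN⟩ := chain hG hC hJ hB h2 h1 hF hS (Fin s) s 1 one_pos
  refine ⟨N, ?_⟩
  intro O _ _ _ _ X hX hXN
  obtain ⟨L', hL'⟩ := hN O X hX hXN {0} ⟨0, by simp⟩
  refine ⟨L', ?_⟩
  rintro ⟨u, v, hE⟩
  obtain ⟨T, hT, -⟩ := hL' u v hE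
  have := Finset.card_le_univ T
  rw [hT, Fintype.card_fin] at this
  omega

end Pool.Agent.K3h29.SP
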