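import Pool.Agent.K3h29.SP.Stm

/-! SP project (helper29, MP_d42559_co), brick RING (helper93). -/

set_option autoImplicit false

namespace Pool.Agent.K3h29.SP

open Polynomial

theorem exists_alpha (N : ℕ) (hN : 1 ≤ N) :
    ∃ α : ℝ, 1 < α ∧ α * ∏ m ∈ Finset.Icc 1 N, (α ^ m - 1) = 1 := by
  have hc : Continuous fun z : ℝ => z * ∏ m ∈ Finset.Icc 1 N, (z ^ m - 1) :=
    continuous_id.mul (continuous_finsetProd _ fun m _ => (continuous_id.pow m).sub continuous_const)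
  have h1 : (1 : ℝ) * ∏ m ∈ Finset.Icc 1 N, ((1 : ℝ) ^ m - 1) = 0 := by
    rw [Finset.prod_eq_zero (i := 1) (Finset.mem_Icc.2 ⟨le_refl 1, hN⟩) (by norm_num), mul_zero]
  have h2 : (1 : ℝ) ≤ 2 * ∏ m ∈ Finset.Icc 1 N, ((2 : ℝ) ^ m - 1) := by
    have h3 : (1 : ℝ) ≤ ∏ m ∈ Finset.Icc 1 N, ((2 : ℝ) ^ m - 1) := by
      refine Finset.prod_induction _ (fun x : ℝ => 1 ≤ x) (fun a b ha hb => ?_) le_rfl
        fun m hm => ?_
      · show 1 ≤ a * b
        nlinarith
      · have h4 : (2 : ℝ) ^ 1 ≤ 2 ^ m := pow_le_pow_right₀ (by norm_num) (Finset.mem_Icc.1 hm).1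
        linarith
    linarith
  obtain ⟨α, hα, he⟩ := intermediate_value_Icc (by norm_num : (1 : ℝ) ≤ 2) hc.continuousOn
    (show (1 : ℝ) ∈ Set.Icc ((1 : ℝ) * ∏ m ∈ Finset.Icc 1 N, ((1 : ℝ) ^ m - 1))
      (2 * ∏ m ∈ Finset.Icc 1 N, ((2 : ℝ) ^ m - 1)) from ⟨by rw [h1]; norm_num, h2⟩)
  refine ⟨α, lt_of_le_of_ne hα.1 ?_, he⟩
  rintro rfl
  have he' : (1 : ℝ) * ∏ m ∈ Finset.Icc 1 N, ((1 : ℝ) ^ m - 1) = 1 := he
  rw [h1] at he'
  norm_num at he'

theorem isIntegral_alpha (N : ℕ) (α : ℝ) (h : α * ∏ m ∈ Finset.Icc 1 N, (α ^ m - 1) = 1) :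
    IsIntegral ℤ α := by
  have hq : (∏ m ∈ Finset.Icc 1 N, ((X : ℤ[X]) ^ m - C 1)).Monic :=
    monic_prod_of_monic _ _ fun m hm =>
      monic_X_pow_sub_C 1 (by have := (Finset.mem_Icc.1 hm).1; omega)
  have hp : ((X : ℤ[X]) * ∏ m ∈ Finset.Icc 1 N, ((X : ℤ[X]) ^ m - C 1)).Monic := monic_X.mul hq
  refine ⟨X * ∏ m ∈ Finset.Icc 1 N, ((X : ℤ[X]) ^ m - C 1) - 1, hp.sub_of_left ?_, ?_⟩
  · rw [degree_one, ← natDegree_pos_iff_degree_pos, monic_X.natDegree_mul hq, natDegree_X]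
    omega
  · rw [eval₂_sub, eval₂_mul, eval₂_X, eval₂_one, eval₂_finsetProd]
    simp only [eval₂_sub, eval₂_pow, eval₂_X, eval₂_one, map_one]
    rw [h, sub_self]

theorem ring : RingStm := by
  classical
  intro N
  obtain ⟨α, h1, h2⟩ := exists_alpha (N + 1) (by omega)
  have hint := isIntegral_alpha (N + 1) α h2
  have hfg : (Subalgebra.toSubmodule (Algebra.adjoin ℤ {α})).FG := hint.fg_adjoin_singleton
  set O : Subring ℝ := (Algebra.adjoin ℤ {α}).toSubring with hO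
  have hmem : α ∈ O := Algebra.subset_adjoin (Set.mem_singleton α)
  have hfin : Module.Finite ℤ O := by
    have h3 : Module.Finite ℤ (Algebra.adjoin ℤ {α}) := Module.Finite.iff_fg.2 hfg
    exact h3
  set a : O := ⟨α, hmem⟩ with ha
  have hprod : a * ∏ m ∈ Finset.Icc 1 (N + 1), (a ^ m - 1) = 1 := by
    apply Subtype.ext
    push_cast
    exact h2
  have hua : IsUnit a := IsUnit.of_mul_eq_one _ hprod
  have hum : ∀ m, 1 ≤ m → m ≤ N + 1 → IsUnit (a ^ m - 1) := by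
    intro m hm hm2
    have h3 : (a ^ m - 1) ∣ a * ∏ m ∈ Finset.Icc 1 (N + 1), (a ^ m - 1) :=
      (Finset.dvd_prod_of_mem (fun m => a ^ m - 1) (Finset.mem_Icc.2 ⟨hm, hm2⟩)).mul_left a
    rw [hprod] at h3
    exact isUnit_of_dvd_one h3
  have hinj : Function.Injective fun i : ℕ => a ^ i := by
    intro i j hij
    have h3 : α ^ i = α ^ j := by
      have := congrArg Subtype.val hij
      simpa using this
    exact (pow_right_strictMono₀ h1).injective h3
  refine ⟨O, (Finset.range (N + 1)).image fun i => a ^ i, hfin, ?_, ?_⟩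
  · rw [Finset.card_image_of_injective _ hinj, Finset.card_range]
    omega
  · have key : ∀ i j : ℕ, j < i → i < N + 1 → IsUnit (a ^ i - a ^ j) := by
      intro i j hij hi
      have h3 : a ^ i - a ^ j = a ^ j * (a ^ (i - j) - 1) := by
        rw [mul_sub, ← pow_add, mul_one]
        congr 2
        omega
      rw [h3]
      exact (hua.pow j).mul (hum (i - j) (by omega) (by omega))
    intro x hx y hy hxy
    obtain ⟨i, hi, rfl⟩ := Finset.mem_image.1 hx
    obtain ⟨j, hj, rfl⟩ := Finset.mem_image.1 hy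
    rw [Finset.mem_range] at hi hj
    have hne : i ≠ j := fun h => hxy (by rw [h])
    rcases lt_or_gt_of_ne hne with h | h
    · have h3 := key j i h hj
      rw [← neg_sub]
      exact h3.neg
    · exact key i j h hi

end Pool.Agent.K3h29.SP
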