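import Pool.Agent.K3h29.SP.Stm

/-! SP project (helper29, S11677): brick START (helper17). -/

set_option autoImplicit false

namespace Pool.Agent.K3h29.SP

theorem start_exp {ι : Type} (w : ι → ℤ) :
    ∃ e : ℕ, (∀ j, (2 : ℤ) ^ e ∣ w j) ∧ (w ≠ 0 → ∃ j, ¬ (2 : ℤ) ^ (e + 1) ∣ w j) := by
  classical
  by_cases hw : w = 0
  · exact ⟨0, fun j => by simp, fun h => absurd hw h⟩
  obtain ⟨j₀, hj₀⟩ : ∃ j, w j ≠ 0 := by
    by_contra hcon
    push Not at hcon
    exact hw (funext hcon)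
  have hex : ∃ e : ℕ, ∃ j, ¬ (2 : ℤ) ^ (e + 1) ∣ w j := by
    refine ⟨(w j₀).natAbs, j₀, fun hdvd => ?_⟩
    have h1 := Int.natAbs_dvd_natAbs.2 hdvd
    have h2 := Nat.le_of_dvd (Int.natAbs_pos.2 hj₀) h1
    rw [Int.natAbs_pow] at h2
    have h3 : (w j₀).natAbs + 1 < 2 ^ ((w j₀).natAbs + 1) := Nat.lt_two_pow_self
    have h4 : (2 : ℤ).natAbs = 2 := rfl
    rw [h4] at h2
    omega
  refine ⟨Nat.find hex, fun j => ?_, fun _ => Nat.find_spec hex⟩
  rcases Nat.eq_zero_or_pos (Nat.find hex) with h0 | h0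
  · rw [h0, pow_zero]
    exact one_dvd _
  · have h1 : Nat.find hex - 1 < Nat.find hex := Nat.sub_lt h0 one_pos
    have h2 := Nat.find_min hex h1
    push Not at h2
    have h3 := h2 j
    rwa [Nat.sub_add_cancel h0] at h3

theorem start : StartStm := by
  intro O _ ι _ _ X L u v h0 h1 hne hex
  classical
  choose e he1 he2 using fun w : ι → ℤ => start_exp w
  have hmul : ∀ (w : ι → ℤ) (j : ι), w j = 2 ^ e w * (w j / 2 ^ e w) := fun w j =>
    (Int.mul_ediv_cancel' (he1 w j)).symm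
  have hw : ∀ x ∈ X, ∀ ℓ' ∈ L, u x (ev ℓ' x) ≠ 0 := by
    intro x hx ℓ' hℓ' hzero
    have hz : ∀ ℓ ∈ L, ev ℓ' x = ev ℓ x := by
      intro ℓ hℓ
      refine (hex x hx ℓ hℓ ℓ' hℓ').1 ?_
      rw [hzero]
      simp
    have e0 := hz _ h0
    have e1 := hz _ h1
    rw [e0] at e1
    apply hne
    simpa [ev] using e1
  refine ⟨fun x y j => u x y j / 2 ^ e (u x y), ?_⟩
  have hexact : ∀ x ∈ X, Exact L (fun x y j => u x y j / 2 ^ e (u x y)) v x := by
    intro x hx ℓ hℓ ℓ' hℓ'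
    rw [← hex x hx ℓ hℓ ℓ' hℓ']
    have h2 : ∑ j, u x (ev ℓ' x) j * v ℓ j =
        2 ^ e (u x (ev ℓ' x)) * ∑ j, u x (ev ℓ' x) j / 2 ^ e (u x (ev ℓ' x)) * v ℓ j := by
      rw [Finset.mul_sum]
      refine Finset.sum_congr rfl fun j _ => ?_
      rw [← mul_assoc, ← hmul]
    rw [h2, mul_eq_zero]
    constructor
    · exact fun h => Or.inr h
    · rintro (h | h)
      · exact absurd h (by positivity)
      · exact h
  refine ⟨⟨?_, ?_, ?_, ?_, ?_⟩, subset_rfl, le_rfl, ?_, hexact, ?_⟩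
  · intro i hi
    simp at hi
  · intro i hi
    simp at hi
  · intro i hi
    simp at hi
  · intro i hi
    simp at hi
  · intro i hi
    simp at hi
  · intro i hi
    simp at hi
  · intro x hx ℓ hℓ
    refine ⟨fun j hj => by simp at hj, ?_⟩
    obtain ⟨j, hj⟩ := he2 (u x (ev ℓ x)) (hw x hx ℓ hℓ)
    refine ⟨j, fun h => hj ?_⟩
    rw [ZMod.intCast_zmod_eq_zero_iff_dvd] at h
    obtain ⟨c, hc⟩ := h
    refine ⟨c, ?_⟩
    rw [hmul (u x (ev ℓ x)) j, hc, pow_succ]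
    push_cast
    ring

end Pool.Agent.K3h29.SP
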