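import Pool.Agent.K3h29.SP.Stm

/-!
# Brick TRI: triangular submatrix (by helper87)
-/

set_option autoImplicit false

namespace Pool.Agent.K3h29.SP

theorem tri : TriStm := by
  intro α β _ _ _ _ B p l hd hz
  have hN : B.submatrix p l = ((1 : Matrix α α ℝ).submatrix p id) * B *
      ((1 : Matrix β β ℝ).submatrix id l) := by
    ext i j
    simp [Matrix.mul_apply, Matrix.one_apply]
  have hdet : (B.submatrix p l).det ≠ 0 := by
    rw [Matrix.det_fin_three]
    simp only [Matrix.submatrix_apply]
    rw [hz 0 1 (by decide), hz 0 2 (by decide), hz 1 2 (by decide)]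
    simp only [mul_zero, zero_mul, sub_zero, add_zero]
    exact mul_ne_zero (mul_ne_zero (hd 0) (hd 1)) (hd 2)
  have hrank : (B.submatrix p l).rank = 3 := by
    have hu : IsUnit (B.submatrix p l) := by
      rw [Matrix.isUnit_iff_isUnit_det]
      exact isUnit_iff_ne_zero.2 hdet
    rw [Matrix.rank_of_isUnit _ hu]
    simp
  rw [← hrank, hN]
  exact (Matrix.rank_mul_le_left _ _).trans (Matrix.rank_mul_le_right _ _)

end Pool.Agent.K3h29.SP
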