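import Pool.Agent.K3h29.SP.Stm

/-!
# Invertibility and uniqueness modulo powers of two (bricks INV and UNQ, by helper92)
-/

set_option autoImplicit false

namespace Pool.Agent.K3h29.SP

theorem inv : InvStm := by
  intro ι _ _ T K w γ hD h
  induction K with
  | zero =>
    intro j _
    simp
  | succ K ih =>
    have h1 : ∀ j ∈ T, (2 : ℤ) ^ K ∣ γ j :=
      ih fun i hi => (pow_dvd_pow 2 (Nat.le_succ K)).trans (h i hi)
    choose! g hg using h1
    intro i hi
    have h2 : ∑ j ∈ T, w i j * γ j = 2 ^ K * ∑ j ∈ T, w i j * g j := by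
      rw [Finset.mul_sum]
      refine Finset.sum_congr rfl fun j hj => ?_
      rw [hg j hj]
      ring
    have h3 : (2 : ℤ) ∣ ∑ j ∈ T, w i j * g j := by
      have h4 := h i hi
      rw [h2, pow_succ] at h4
      exact Int.dvd_of_mul_dvd_mul_left (by positivity) h4
    have h5 : ((∑ j ∈ T, w i j * g j : ℤ) : ZMod 2) = ((g i : ℤ) : ZMod 2) := by
      push_cast
      rw [Finset.sum_eq_single i]
      · rw [hD i hi i, if_pos rfl, one_mul]
      · intro j _ hj
        rw [hD i hi j, if_neg (Ne.symm hj), zero_mul]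
      · intro hn
        exact absurd hi hn
    have h6 : (2 : ℤ) ∣ g i := by
      have h7 : ((∑ j ∈ T, w i j * g j : ℤ) : ZMod 2) = 0 :=
        (ZMod.intCast_zmod_eq_zero_iff_dvd _ 2).2 h3
      rw [h5] at h7
      exact (ZMod.intCast_zmod_eq_zero_iff_dvd _ 2).1 h7
    rw [hg i hi, pow_succ]
    exact mul_dvd_mul_left _ h6

theorem res_sub {ι : Type} (T : Finset ι) (B B' : ι → ι → ℤ) (z : ι → ℤ) (j : ι) :
    res T B' z j = res T B z j + ∑ i ∈ T, z i * (B j i - B' j i) := by
  unfold res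
  have : ∑ i ∈ T, z i * (B j i - B' j i) = ∑ i ∈ T, B j i * z i - ∑ i ∈ T, B' j i * z i := by
    rw [← Finset.sum_sub_distrib]
    refine Finset.sum_congr rfl fun i _ => ?_
    ring
  rw [this]
  ring

theorem unq : UnqStm := by
  intro ι _ _ T B B' K w hD hB hB'
  have h1 : ∀ j, j ∉ T → ∀ i ∈ T, (2 : ℤ) ^ K ∣ B j i - B' j i := by
    intro j hj
    refine inv ι T K w (fun i => B j i - B' j i) hD fun i hi => ?_
    have h2 := res_sub T B B' (w i) j
    have h3 := dvd_sub (hB' i hi j hj) (hB i hi j hj)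
    rw [h2, add_sub_cancel_left] at h3
    exact h3
  refine ⟨h1, fun k hk z => ?_⟩
  have h4 : ∀ j, j ∉ T → (2 : ℤ) ^ k ∣ ∑ i ∈ T, z i * (B j i - B' j i) := fun j hj =>
    Finset.dvd_sum fun i hi => Dvd.dvd.mul_left ((pow_dvd_pow 2 hk).trans (h1 j hj i hi)) _
  constructor
  · intro h j hj
    rw [res_sub T B B' z j]
    exact dvd_add (h j hj) (h4 j hj)
  · intro h j hj
    have h5 := h j hj
    rw [res_sub T B B' z j] at h5
    exact (Int.dvd_add_left (h4 j hj)).1 h5

end Pool.Agent.K3h29.SP
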